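import Pool.Agent.Zk3.WI.Def

/-! # L-functions: the number of zeros, explicit in the conductor (after `Pool.Agent.Y23.G.An1`) -/

set_option autoImplicit false
set_option linter.unusedSectionVars false
set_option maxHeartbeats 2000000

open Complex Filter Topology Set MeasureTheory Metric
open scoped ComplexConjugate

namespace Pool.Agent.Zk3.WI

open Pool.Agent.W169.HF H353.E Pool.Agent.W355.UN Pool.Agent.TH839.NA
open Pool.Agent.Y23.G
open Pool.Agent

section
variable [L : LFun]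

lemma XL_bd1 {A : ℝ} (hA : ∀ j, ‖L.a j‖ ≤ A) (hA0 : 0 ≤ A) (s : ℂ) (h1 : 2 ≤ s.re) (h2 : s.re ≤ 12) :
    ‖XL s‖ ≤ Real.log L.N + (L.m * (A + 11 + Bst (1 / 2)) + 1) * Lg s.im := by
  have h := ul (L := L)
  have hN : 1 ≤ L.N := h.hN
  have hp : ∀ j, 1 ≤ 1 + ‖-L.a j‖ := fun j => by linarith [norm_nonneg (-L.a j)]
  have hpp : 1 ≤ ∏ j, (1 + ‖-L.a j‖) := by
    refine Finset.prod_induction _ (fun x => (1 : ℝ) ≤ x) (fun a b ha hb => ?_) le_rfl fun j _ => hp j
    nlinarith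
  have hlog : Real.log (L.N * ∏ j, (1 + ‖-L.a j‖)) ≤ Real.log L.N + L.m * A := by
    rw [Real.log_mul (by linarith) (by linarith), Real.log_prod (fun j _ => by linarith [hp j])]
    have h2 : ∑ j : Fin L.m, Real.log (1 + ‖-L.a j‖) ≤ ∑ _j : Fin L.m, A := by
      refine Finset.sum_le_sum fun j _ => ?_
      have h3 := Real.log_le_sub_one_of_pos (show 0 < 1 + ‖-L.a j‖ by linarith [hp j])
      have h4 := hA j
      rw [norm_neg] at h3 ⊢
      linarith
    rw [Finset.sum_const, Finset.card_univ, Fintype.card_fin, nsmul_eq_mul] at h2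
    linarith
  have hm : (0 : ℝ) ≤ L.m := Nat.cast_nonneg _
  have hB := Bst_nonneg (1 / 2)
  have e : XL s = logDeriv L.X s := by rw [logDeriv_apply]; rfl
  rw [e, h.logD (by linarith)]
  have b1 := gaD_norm hN h.re_le (s := s) (by linarith)
  have b2 := h.bd (1 / 2) (by norm_num) (by norm_num) s (by linarith)
  have hL := one_le_Lg s.im
  have b3 : Real.log (‖s‖ + 4) ≤ 4 * Lg s.im := by
    have h3 : ‖s‖ + 4 ≤ (3 + |s.im|) ^ 4 := by
      have h4 := Complex.norm_le_abs_re_add_abs_im s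
      rw [abs_of_nonneg (by linarith : 0 ≤ s.re)] at h4
      have h5 := abs_nonneg s.im
      have h6 : (3 + |s.im|) ^ 4 = (3 + |s.im|) ^ 3 * (3 + |s.im|) := by ring
      have h7 : (3 : ℝ) ^ 3 ≤ (3 + |s.im|) ^ 3 := pow_le_pow_left₀ (by norm_num) (by linarith) 3
      nlinarith
    have h4 := Real.log_le_log (by positivity) h3
    rw [Real.log_pow] at h4
    unfold Lg
    push_cast at h4
    linarith
  refine (norm_add_le _ _).trans ((add_le_add b1 b2).trans ?_)
  have h5 : (L.m : ℝ) * (Real.log (‖s‖ + 4) + 7) ≤ L.m * (11 * Lg s.im) := by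
    apply mul_le_mul_of_nonneg_left _ hm
    linarith
  have h6 : (L.m : ℝ) * Bst (1 / 2) ≤ (L.m : ℝ) * Bst (1 / 2) * Lg s.im := le_mul_of_one_le_right (by positivity) hL
  have h7 : (L.m : ℝ) * A ≤ (L.m : ℝ) * A * Lg s.im := le_mul_of_one_le_right (by positivity) hL
  linarith

/-- moving along a segment -/
lemma X_seg1 {B C : ℝ} (hB : 0 ≤ B) (hC : 1 ≤ C) (hCb : ∀ s : ℂ, 2 ≤ s.re → s.re ≤ 12 → ‖XL s‖ ≤ B + C * Lg s.im) {s v : ℂ}
    (h1 : 2 ≤ s.re) (h2 : s.re ≤ 12) (h3 : 2 ≤ (s + v).re) (h4 : (s + v).re ≤ 12) :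
    ‖L.X (s + v)‖ ≤ ‖L.X s‖ * Real.exp ((B + C * (Lg s.im + |v.im|)) * ‖v‖) := by
  have hre : ∀ τ : ℝ, (s + τ * v).re = s.re + τ * v.re := fun τ => by
    rw [add_re, Complex.re_ofReal_mul]
  have him : ∀ τ : ℝ, (s + τ * v).im = s.im + τ * v.im := fun τ => by
    rw [add_im, Complex.im_ofReal_mul]
  rw [add_re] at h3 h4
  have hreg : ∀ τ ∈ Icc (0 : ℝ) 1, 2 ≤ (s + τ * v).re ∧ (s + τ * v).re ≤ 12 := by
    intro τ hτ
    rw [hre]
    constructor <;> nlinarith [hτ.1, hτ.2]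
  have h := seg (F := L.X) (s := s) (v := v) (ℓ := 0) (K := B + C * (Lg s.im + |v.im|)) (fun τ _ => Xd _)
    (fun τ hτ => X_ne (by linarith [(hreg τ hτ).1])) (fun τ hτ => by
      rw [Complex.ofReal_zero, sub_zero, logDeriv_apply]
      refine (hCb _ (hreg τ hτ).1 (hreg τ hτ).2).trans ?_
      refine add_le_add le_rfl ?_
      apply mul_le_mul_of_nonneg_left _ (by linarith)
      rw [him]
      refine (Lg_add _ _).trans ?_
      rw [abs_mul, abs_of_nonneg hτ.1]
      have := abs_nonneg v.im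
      nlinarith [hτ.2])
  rwa [zero_mul, zero_add] at h

/-- bounds on discs -/
lemma X_ball1 {B C : ℝ} (hB : 0 ≤ B) (hC : 1 ≤ C) (hCb : ∀ s : ℂ, 2 ≤ s.re → s.re ≤ 12 → ‖XL s‖ ≤ B + C * Lg s.im) : ∀ T : ℝ,
    ∀ z ∈ closedBall (ctr T) 6, ‖L.X z‖ ≤ ‖L.X (ctr T)‖ * Real.exp (170 * (B + C * Lg T)) := by
  intro T z hz
  have hL := one_le_Lg T
  have hCL : 1 ≤ C * Lg T := by nlinarith
  rw [mem_closedBall, dist_eq_norm] at hz
  have hcre : (ctr T).re = 9 / 2 := rfl
  have hcim : (ctr T).im = T := rfl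
  have hzre := (Complex.abs_re_le_norm (z - ctr T)).trans hz
  have hzim := (Complex.abs_im_le_norm (z - ctr T)).trans hz
  rw [sub_re, hcre] at hzre
  rw [sub_im, hcim] at hzim
  rw [abs_le] at hzre
  by_cases hre : 9 / 2 ≤ z.re
  · have h := X_seg1 hB hC hCb (s := ctr T) (v := z - ctr T) (by rw [hcre]; norm_num) (by rw [hcre]; norm_num)
      (by rw [add_sub_cancel]; linarith) (by rw [add_sub_cancel]; linarith)
    rw [add_sub_cancel] at h
    refine h.trans ?_
    apply mul_le_mul_of_nonneg_left _ (norm_nonneg _)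
    apply Real.exp_le_exp.2
    rw [sub_im, hcim]
    calc (B + C * (Lg T + |z.im - T|)) * ‖z - ctr T‖ ≤ (B + C * (Lg T + 6)) * 6 := by gcongr
      _ ≤ 170 * (B + C * Lg T) := by nlinarith
  · push Not at hre
    have hs : Slow (fun u => L.X ((1 / 2 + T * I) + (1 : ℝ) * u)) := slow_affine L.raw.slow (1 / 2 + T * I) one_pos
    have hA : ∀ u : ℂ, |u.re| = 4 → ‖L.X ((1 / 2 + T * I) + (1 : ℝ) * u)‖ ≤
        ‖L.X (ctr T)‖ * Real.exp ((2 * (B + C * Lg T)) * (1 + ‖u‖ ^ 2)) := by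
      intro u hu
      have key : ∀ y : ℝ, ‖L.X ⟨9 / 2, T + y⟩‖ ≤ ‖L.X (ctr T)‖ * Real.exp ((B + C * (Lg T + |y|)) * |y|) := by
        intro y
        have h := X_seg1 hB hC hCb (s := ctr T) (v := ⟨0, y⟩) (by rw [hcre]; norm_num) (by rw [hcre]; norm_num)
          (by rw [add_re, hcre]; norm_num) (by rw [add_re, hcre]; norm_num)
        have e1 : ctr T + (⟨0, y⟩ : ℂ) = ⟨9 / 2, T + y⟩ := by
          unfold ctr; apply Complex.ext <;> simp
        have e2 : ‖(⟨0, y⟩ : ℂ)‖ = |y| := by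
          have : (⟨0, y⟩ : ℂ) = y * I := by apply Complex.ext <;> simp
          rw [this, norm_mul, norm_I, mul_one, Complex.norm_real, Real.norm_eq_abs]
        rw [e1, e2, hcim] at h
        exact h
      have hbd : ‖L.X ⟨9 / 2, T + u.im⟩‖ ≤ ‖L.X (ctr T)‖ * Real.exp ((2 * (B + C * Lg T)) * (1 + ‖u‖ ^ 2)) := by
        refine (key u.im).trans ?_
        apply mul_le_mul_of_nonneg_left _ (norm_nonneg _)
        apply Real.exp_le_exp.2
        have h1 := Complex.abs_im_le_norm u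
        have h2 := norm_nonneg u
        have h3 := abs_nonneg u.im
        have h5 : |u.im| ^ 2 ≤ ‖u‖ ^ 2 := pow_le_pow_left₀ h3 h1 2
        have h6 : |u.im| ≤ (1 + ‖u‖ ^ 2) := by nlinarith [sq_nonneg (|u.im| - 1)]
        have h4 : (Lg T + |u.im|) * |u.im| ≤ 2 * Lg T * (1 + ‖u‖ ^ 2) := by
          have h7 : Lg T * |u.im| ≤ Lg T * (1 + ‖u‖ ^ 2) := mul_le_mul_of_nonneg_left h6 (by linarith)
          have h8 : |u.im| ^ 2 ≤ Lg T * (1 + ‖u‖ ^ 2) := by nlinarith
          nlinarith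
        have h9 : B * |u.im| ≤ B * (1 + ‖u‖ ^ 2) := mul_le_mul_of_nonneg_left h6 hB
        have h10 := mul_le_mul_of_nonneg_left h4 (show 0 ≤ C by linarith)
        have h11 : 0 ≤ B * (1 + ‖u‖ ^ 2) := by positivity
        have e1 : (B + C * (Lg T + |u.im|)) * |u.im| = B * |u.im| + C * ((Lg T + |u.im|) * |u.im|) := by ring
        have e2 : 2 * (B + C * Lg T) * (1 + ‖u‖ ^ 2) = 2 * (B * (1 + ‖u‖ ^ 2)) + C * (2 * Lg T * (1 + ‖u‖ ^ 2)) := by ring
        rw [e1, e2]
        linarith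
      rcases eq_or_eq_neg_of_abs_eq hu with h | h
      · have e : (1 / 2 + T * I : ℂ) + (1 : ℝ) * u = ⟨9 / 2, T + u.im⟩ := by
          apply Complex.ext
          · simp [h]; norm_num
          · simp
        rw [e]; exact hbd
      · have e : (1 / 2 + T * I : ℂ) + (1 : ℝ) * u = 1 - conj (⟨9 / 2, T + u.im⟩ : ℂ) := by
          rw [mk_one]
          apply Complex.ext
          · simp [h]; norm_num
          · simp
        rw [e, X_norm]; exact hbd
    have hst := strip hs (K := 2 * (B + C * Lg T)) (by nlinarith) (by norm_num : (0 : ℝ) < 4) hA (u := z - (1 / 2 + T * I)) (by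
      have e : (z - (1 / 2 + T * I)).re = z.re - 1 / 2 := by simp
      rw [e, abs_le]
      constructor <;> linarith)
    have e : (1 / 2 + T * I : ℂ) + (1 : ℝ) * (z - (1 / 2 + T * I)) = z := by push_cast; ring
    rw [e] at hst
    refine hst.trans ?_
    apply mul_le_mul_of_nonneg_left _ (norm_nonneg _)
    apply Real.exp_le_exp.2
    have hn : ‖z - (1 / 2 + T * I)‖ ^ 2 ≤ 52 := by
      rw [Complex.sq_norm, Complex.normSq_apply]
      have e1 : (z - (1 / 2 + T * I)).re = z.re - 1 / 2 := by simp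
      have e2 : (z - (1 / 2 + T * I)).im = z.im - T := by simp
      rw [e1, e2]
      rw [abs_le] at hzim
      nlinarith
    have hBC : 0 ≤ B + C * Lg T := by linarith
    calc 2 * (B + C * Lg T) * (1 + 2 * 4 ^ 2 + ‖z - (1 / 2 + T * I)‖ ^ 2) ≤ 2 * (B + C * Lg T) * (1 + 2 * 4 ^ 2 + 52) := by gcongr
      _ = 170 * (B + C * Lg T) := by ring

/-- the number of zeros -/
lemma X_cnt1 {B C : ℝ} (hB : 0 ≤ B) (hC0 : 1 ≤ C) (hCb : ∀ s : ℂ, 2 ≤ s.re → s.re ≤ 12 → ‖XL s‖ ≤ B + C * Lg s.im)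
    (t : ℝ) (S : Finset ℂ) (hS : ∀ s ∈ S, L.X s = 0 ∧ |s.im - t| ≤ 1) :
    ((∑ s ∈ S, H370.mult L.X s : ℕ) : ℝ) ≤ 170 / Real.log (6 / 5.2) * (B + C * Lg t) := by
  have hq : 0 < Real.log (6 / 5.2) := Real.log_pos (by norm_num)
  have h1 : Xn t (ctr t) = 1 := inv_mul_cancel₀ (ctr_ne t)
  have hL := one_le_Lg t
  have hCL : 1 ≤ C * Lg t := by nlinarith
  have h2 : ∀ z ∈ closedBall (ctr t) 6, ‖Xn t z‖ ≤ Real.exp (170 * (B + C * Lg t)) := by
    intro z hz
    unfold Xn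
    have h1 := X_ball1 hB hC0 hCb t z hz
    have h2 : 0 < ‖L.X (ctr t)‖ := norm_pos_iff.2 (ctr_ne t)
    rw [norm_mul, norm_inv, inv_mul_le_iff₀ h2]
    exact h1
  have hM : 1 ≤ Real.exp (170 * (B + C * Lg t)) := by
    apply Real.one_le_exp
    linarith
  have hj := H370.Loc.jensen_mult (f := Xn t) (c := ctr t) (r := 5.2) (R := 6) (M := Real.exp (170 * (B + C * Lg t))) (by norm_num)
    (by norm_num) hM (fun z _ => by
      unfold Xn
      exact (analyticAt_const).mul (Xd.analyticAt z)) (by rw [h1]; exact one_ne_zero) h2 S (fun z hz => by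
      obtain ⟨h3, h4⟩ := hS z hz
      have h5 : z.re ≤ 3 / 2 := by
        by_contra hcon
        push Not at hcon
        exact X_ne hcon h3
      have h6 : -1 / 2 ≤ z.re := by
        by_contra hcon
        push Not at hcon
        refine X_ne (s := 1 - conj z) ?_ (X_zero h3)
        simp
        linarith
      rw [mem_closedBall, dist_eq_norm]
      have h7 : ‖z - ctr t‖ ^ 2 ≤ 5.2 ^ 2 := by
        rw [Complex.sq_norm, Complex.normSq_apply]
        have e1 : (z - ctr t).re = z.re - 9 / 2 := by unfold ctr; simp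
        have e2 : (z - ctr t).im = z.im - t := by unfold ctr; simp
        rw [e1, e2]
        rw [abs_le] at h4
        nlinarith
      exact le_of_sq_le_sq h7 (by norm_num))
  rw [h1, norm_one, div_one, Real.log_exp] at hj
  have e : ∀ z : ℂ, H370.mult (Xn t) z = H370.mult L.X z := fun z =>
    mult_const_mul (inv_ne_zero (ctr_ne t)) (Xd.analyticAt z)
  simp only [e] at hj
  push_cast
  refine hj.trans (le_of_eq ?_)
  ring

end

/-- the weighted sum over the zeros -/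
lemma zsum1 [D : ZD] {c B C : ℝ} (hc : 0 < c) (hB : 0 ≤ B) (hC : 1 ≤ C)
    (hcnt : ∀ t : ℝ, ∀ S : Finset ℂ, (∀ s ∈ S, s ∈ D.Zs ∧ |s.im - t| ≤ 1) →
    ((∑ s ∈ S, mu s : ℕ) : ℝ) ≤ c * (B + C * Lg t)) (t : ℝ) (S : Finset ℂ) (hS : ∀ s ∈ S, s ∈ D.Zs) :
    ∑ s ∈ S, (mu s : ℝ) * (1 / (1 + (s.im - t) ^ 2)) ≤ (36 * (∑' j : ℤ, Lg j / (1 + (j : ℝ) ^ 2) + 1)) * c * (B + C * Lg t) := by
  classical
  set A : ℝ := ∑' j : ℤ, Lg j / (1 + (j : ℝ) ^ 2) with hA
  have hA0 : 0 ≤ A := tsum_nonneg fun j => by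
    have := one_le_Lg (j : ℝ)
    positivity
  set n : ℤ := ⌊t⌋ with hn
  have hL := one_le_Lg t
  set W : ℝ := B + C * Lg t with hW
  have hW0 : 0 < W := by nlinarith
  -- group by the integer part
  have h1 : ∑ s ∈ S, (mu s : ℝ) * (1 / (1 + (s.im - t) ^ 2)) =
      ∑ k ∈ S.image (fun s => ⌊s.im⌋), ∑ s ∈ S.filter (fun s => ⌊s.im⌋ = k),
        (mu s : ℝ) * (1 / (1 + (s.im - t) ^ 2)) :=
    (Finset.sum_fiberwise_of_maps_to (fun s hs => Finset.mem_image_of_mem _ hs) _).symm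
  rw [h1]
  have h2 : ∀ k ∈ S.image (fun s => ⌊s.im⌋), ∑ s ∈ S.filter (fun s => ⌊s.im⌋ = k),
        (mu s : ℝ) * (1 / (1 + (s.im - t) ^ 2)) ≤ 3 * c * (12 * (W * (Lg ((k - n : ℤ) : ℝ) / (1 + ((k - n : ℤ) : ℝ) ^ 2)))) := by
    intro k _
    have h3 := hcnt k (S.filter (fun s => ⌊s.im⌋ = k)) (by
      intro s hs
      rw [Finset.mem_filter] at hs
      refine ⟨hS s hs.1, ?_⟩
      have h4 := Int.floor_le s.im
      have h5 := Int.lt_floor_add_one s.im
      rw [hs.2] at h4 h5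
      rw [abs_le]
      constructor <;> linarith)
    have h6 : ∀ s ∈ S.filter (fun s => ⌊s.im⌋ = k), (mu s : ℝ) * (1 / (1 + (s.im - t) ^ 2)) ≤
        (mu s : ℝ) * (12 / (1 + ((k - n : ℤ) : ℝ) ^ 2)) := by
      intro s hs
      rw [Finset.mem_filter] at hs
      refine mul_le_mul_of_nonneg_left ?_ (Nat.cast_nonneg _)
      have h4 := Int.floor_le s.im
      have h5 := Int.lt_floor_add_one s.im
      rw [hs.2] at h4 h5
      have h7 := Int.floor_le t
      have h8 := Int.lt_floor_add_one t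
      rw [← hn] at h7 h8
      rw [div_le_div_iff₀ (by positivity) (by positivity)]
      push_cast
      set d := s.im - t with hd
      have h9 : |(k : ℝ) - n| ≤ |d| + 1 := by
        rw [abs_le]
        constructor
        · have := neg_abs_le d
          linarith
        · have := le_abs_self d
          linarith
      have h10 : ((k : ℝ) - n) ^ 2 ≤ (|d| + 1) ^ 2 := by
        rw [← sq_abs]
        exact pow_le_pow_left₀ (abs_nonneg _) h9 2
      have h11 : (|d| + 1) ^ 2 ≤ 2 * d ^ 2 + 2 := by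
        nlinarith [sq_nonneg (|d| - 1), sq_abs d]
      nlinarith
    have h7 : B + C * Lg (k : ℝ) ≤ W * Lg ((k - n : ℤ) : ℝ) * 3 := by
      have h77 : Lg (k : ℝ) ≤ Lg t * Lg ((k - n : ℤ) : ℝ) * 3 := by
        unfold Lg
        have h8 : (3 : ℝ) + |(k : ℝ)| ≤ (3 + |t|) * (3 + |((k - n : ℤ) : ℝ)|) := by
          push_cast
          have h9 : |(k : ℝ)| ≤ |(k : ℝ) - n| + |(n : ℝ)| := by
            have := abs_add_le ((k : ℝ) - n) n
            simpa using this
          have h10 : |(n : ℝ)| ≤ |t| + 1 := by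
            have h11 := Int.floor_le t
            have h12 := Int.lt_floor_add_one t
            rw [← hn] at h11 h12
            rw [abs_le]
            constructor
            · have := neg_abs_le t
              linarith
            · have := le_abs_self t
              linarith
          have h13 := abs_nonneg t
          have h14 := abs_nonneg ((k : ℝ) - n)
          nlinarith [mul_nonneg h13 h14]
        have h9 : Real.log (3 + |(k : ℝ)|) ≤ Real.log (3 + |t|) + Real.log (3 + |((k - n : ℤ) : ℝ)|) := by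
          rw [← Real.log_mul (by positivity) (by positivity)]
          exact Real.log_le_log (by positivity) h8
        have h10 := one_le_Lg t
        have h11 := one_le_Lg ((k - n : ℤ) : ℝ)
        unfold Lg at h10 h11
        nlinarith
      have h11 := one_le_Lg ((k - n : ℤ) : ℝ)
      have h12 := mul_le_mul_of_nonneg_left h77 (show 0 ≤ C by linarith)
      have h13 : B ≤ B * (Lg ((k - n : ℤ) : ℝ) * 3) := le_mul_of_one_le_right hB (by linarith)
      rw [hW]
      linarith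
    calc _ ≤ ∑ s ∈ S.filter (fun s => ⌊s.im⌋ = k), (mu s : ℝ) * (12 / (1 + ((k - n : ℤ) : ℝ) ^ 2)) :=
          Finset.sum_le_sum h6
      _ = ((∑ s ∈ S.filter (fun s => ⌊s.im⌋ = k), mu s : ℕ) : ℝ) * (12 / (1 + ((k - n : ℤ) : ℝ) ^ 2)) := by
          rw [← Finset.sum_mul]; push_cast; rfl
      _ ≤ (c * (B + C * Lg k)) * (12 / (1 + ((k - n : ℤ) : ℝ) ^ 2)) := by
          refine mul_le_mul_of_nonneg_right h3 (by positivity)
      _ ≤ (c * (W * Lg ((k - n : ℤ) : ℝ) * 3)) * (12 / (1 + ((k - n : ℤ) : ℝ) ^ 2)) := by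
          refine mul_le_mul_of_nonneg_right (mul_le_mul_of_nonneg_left h7 hc.le) (by positivity)
      _ = _ := by ring
  refine (Finset.sum_le_sum h2).trans ?_
  rw [← Finset.mul_sum, ← Finset.mul_sum, ← Finset.mul_sum]
  have h3 : ∑ k ∈ S.image (fun s => ⌊s.im⌋), (Lg ((k - n : ℤ) : ℝ) / (1 + ((k - n : ℤ) : ℝ) ^ 2)) ≤ A := by
    have h4 : ∑ k ∈ S.image (fun s => ⌊s.im⌋), (Lg ((k - n : ℤ) : ℝ) / (1 + ((k - n : ℤ) : ℝ) ^ 2)) =
        ∑ j ∈ (S.image (fun s => ⌊s.im⌋)).image (fun k => k - n), (Lg (j : ℝ) / (1 + (j : ℝ) ^ 2)) := by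
      exact (Finset.sum_image (f := fun j : ℤ => Lg (j : ℝ) / (1 + (j : ℝ) ^ 2)) (s := S.image (fun s => ⌊s.im⌋))
        (g := fun k => k - n) (fun x _ y _ hxy => by simpa using hxy)).symm
    rw [h4]
    exact summable_j.sum_le_tsum _ fun j _ => by
      have := one_le_Lg (j : ℝ)
      positivity
  have h5 : 0 ≤ 3 * c := by positivity
  have h6 : 12 * (W * ∑ k ∈ S.image (fun s => ⌊s.im⌋), (Lg ((k - n : ℤ) : ℝ) / (1 + ((k - n : ℤ) : ℝ) ^ 2))) ≤
      12 * (W * (A + 1)) := by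
    have := mul_le_mul_of_nonneg_left (h3.trans (by linarith : A ≤ A + 1)) hW0.le
    linarith
  have h7 := mul_le_mul_of_nonneg_left h6 h5
  refine h7.trans (le_of_eq ?_)
  ring

/-- the sum over the zeros, uniformly in the conductor -/
theorem zsumU (m : ℕ) (A : ℝ) (hA : 0 ≤ A) : ∃ K : ℝ, 1 ≤ K ∧ ∀ (L : LFun) (κ e : ℝ), L.m = m → Bd L A κ e → ∀ t : ℝ,
    ∑' ρ : Zt (D := zd (L := L)), (mu (D := zd (L := L)) ρ : ℝ) * (1 / (1 + ((ρ : ℂ).im - t) ^ 2)) ≤
      K * ((Real.log L.N + 1) + Lg t) := by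
  classical
  set Z : ℝ := ∑' j : ℤ, Lg j / (1 + (j : ℝ) ^ 2) with hZ
  have hZ0 : 0 ≤ Z := tsum_nonneg fun j => by
    have := one_le_Lg (j : ℝ)
    positivity
  have hq : 0 < Real.log (6 / 5.2) := Real.log_pos (by norm_num)
  have hB := Bst_nonneg (1 / 2)
  have hm : (0 : ℝ) ≤ m := Nat.cast_nonneg _
  set E : ℝ := m * (A + 11 + Bst (1 / 2)) + 1 with hE
  have hE1 : 1 ≤ E := by
    have : 0 ≤ (m : ℝ) * (A + 11 + Bst (1 / 2)) := by positivity
    linarith
  refine ⟨(36 * (Z + 1)) * (170 / Real.log (6 / 5.2)) * E + 1, by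
    have : 0 ≤ (36 * (Z + 1)) * (170 / Real.log (6 / 5.2)) * E := by positivity
    linarith, fun L κ e hLm hL t => ?_⟩
  have hN : 1 ≤ L.N := (ul (L := L)).hN
  have hlN : 0 ≤ Real.log L.N := Real.log_nonneg hN
  have hLg := one_le_Lg t
  have hXL : ∀ s : ℂ, 2 ≤ s.re → s.re ≤ 12 → ‖XL (L := L) s‖ ≤ Real.log L.N + E * Lg s.im := by
    intro s h1 h2
    have h3 := XL_bd1 (L := L) hL.arch_le hA s h1 h2
    rw [hLm] at h3
    exact h3
  refine Real.tsum_le_of_sum_le (fun ρ => by positivity) fun S => ?_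
  have h3 := zsum1 (D := zd (L := L)) (c := 170 / Real.log (6 / 5.2)) (by positivity) hlN hE1
    (fun t S hS => X_cnt1 (L := L) hlN hE1 hXL t S hS) t (S.map (Function.Embedding.subtype _)) (by
    intro s hs
    rw [Finset.mem_map] at hs
    obtain ⟨u, _, rfl⟩ := hs
    exact u.2)
  rw [Finset.sum_map] at h3
  refine h3.trans ?_
  rw [← hZ]
  have h4 : Real.log L.N + E * Lg t ≤ E * ((Real.log L.N + 1) + Lg t) := by
    have h5 : Real.log L.N ≤ E * Real.log L.N := le_mul_of_one_le_left hlN hE1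
    linarith
  have h5 : 0 ≤ (Real.log L.N + 1) + Lg t := by linarith
  calc (36 * (Z + 1)) * (170 / Real.log (6 / 5.2)) * (Real.log L.N + E * Lg t)
      ≤ (36 * (Z + 1)) * (170 / Real.log (6 / 5.2)) * (E * ((Real.log L.N + 1) + Lg t)) := by gcongr
    _ = (36 * (Z + 1)) * (170 / Real.log (6 / 5.2)) * E * ((Real.log L.N + 1) + Lg t) := by ring
    _ ≤ _ := mul_le_mul_of_nonneg_right (by linarith) h5

end Pool.Agent.Zk3.WI
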