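import Pool.Agent.Y23.G.An2

set_option autoImplicit false

/-!
# The localised Weil form of an L-function: the class
-/

namespace Pool.Agent.Zk3.WI

open Pool.Agent.Y23.G (LFun)
open ArithmeticFunction (vonMangoldt)

/-- Bounds for an L-function: the archimedean parameters are at most `A` and have non-negative real part, and
`∑_{n ≤ y} Λ(n) |c(n)| ≤ κ y + e`. -/
structure Bd (L : LFun) (A κ e : ℝ) : Prop where
  arch_re : ∀ j, 0 ≤ (L.a j).re
  arch_le : ∀ j, ‖L.a j‖ ≤ A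
  primes : ∀ y : ℝ, 1 ≤ y → ∑ n ∈ Finset.Icc 1 ⌊y⌋₊, vonMangoldt n * ‖L.c n‖ ≤ κ * y + e

end Pool.Agent.Zk3.WI
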