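import Pool.Agent.Zk2.LX.H
import Pool.Agent.Zk3.WI.Def

/-! # Lower bounds for the digamma function and for the density, any L-function -/

set_option autoImplicit false
set_option maxHeartbeats 1000000

open Complex Filter Topology Set MeasureTheory
open scoped ComplexConjugate

namespace Pool.Agent.Zk3.WI

open Pool.Agent.Zk2.WP (digamma_lim)
open Pool.Agent.Zk2.LX (h_step)
open Pool.Agent.Y23.G (GD GA LFun)
open Pool.Agent

lemma inv_re' (x V : ℝ) (k : ℕ) :
    (1 / (((x : ℝ) : ℂ) + (V : ℂ) * I + k)).re = ((k : ℝ) + x) / (((k : ℝ) + x) ^ 2 + V ^ 2) := by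
  have e : (((x : ℝ) : ℂ) + (V : ℂ) * I + k) = (((k : ℝ) + x : ℝ) : ℂ) + ((V : ℝ) : ℂ) * I := by
    push_cast; ring
  rw [e, one_div, Complex.inv_re, Complex.normSq_add_mul_I]
  simp

lemma h_sum' {x V : ℝ} (hx : 0 ≤ x) (hV : 2 ≤ V) (K : ℕ) :
    ∑ k ∈ Finset.range K, ((k : ℝ) + x) / (((k : ℝ) + x) ^ 2 + V ^ 2) ≤
      (Real.log (((K : ℝ) + x) ^ 2 + V ^ 2) - Real.log (x ^ 2 + V ^ 2)) / 2 +
        3 * (1 / (x + V - 1) - 1 / ((K : ℝ) + x + V - 1)) := by
  induction K with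
  | zero => simp
  | succ K ih =>
    rw [Finset.sum_range_succ]
    have h := h_step (x := (K : ℝ) + x) (V := V) (by positivity) hV
    have e1 : (K : ℝ) + x + 1 = ((K + 1 : ℕ) : ℝ) + x := by push_cast; ring
    have e3 : (K : ℝ) + x + V = ((K + 1 : ℕ) : ℝ) + x + V - 1 := by push_cast; ring
    have e4 : 1 / ((K : ℝ) + x + V) = 1 / (((K + 1 : ℕ) : ℝ) + x + V - 1) := by rw [e3]
    rw [e1, e4] at h
    linarith

/-- the real part of the digamma function, far from the real axis -/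
lemma dig_lower {x y : ℝ} (hx : 0 < x) (hy : 2 ≤ |y|) :
    Real.log |y| - 3 / (|y| - 1) ≤ (logDeriv Gamma (((x : ℝ) : ℂ) + (y : ℂ) * I)).re := by
  set V : ℝ := |y| with hV
  have hVy : V ^ 2 = y ^ 2 := sq_abs y
  have hre : (((x : ℝ) : ℂ) + (y : ℂ) * I).re = x := by simp
  have h1 := (Complex.continuous_re.tendsto _).comp (digamma_lim (s := ((x : ℝ) : ℂ) + (y : ℂ) * I) (by rw [hre]; exact hx))
  refine ge_of_tendsto h1 (Eventually.of_forall fun m => ?_)
  simp only [Function.comp_apply, Complex.sub_re, Complex.re_sum, Complex.log_re, inv_re']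
  have hs := h_sum' hx.le hy (m + 2)
  rw [hVy] at hs
  have e2 : Real.log ‖(((x : ℝ) : ℂ) + (y : ℂ) * I) + ((m : ℂ) + 2)‖ = Real.log ((((m + 2 : ℕ) : ℝ) + x) ^ 2 + y ^ 2) / 2 := by
    have h3 : (((x : ℝ) : ℂ) + (y : ℂ) * I) + ((m : ℂ) + 2) = ((((m + 2 : ℕ) : ℝ) + x : ℝ) : ℂ) + ((y : ℝ) : ℂ) * I := by
      push_cast; ring
    rw [h3, Complex.norm_add_mul_I, Real.log_sqrt (by positivity)]
  rw [e2]
  have hV0 : 0 < V := by linarith
  have h5 : Real.log V ≤ Real.log (x ^ 2 + y ^ 2) / 2 := by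
    have h6 : Real.log (V ^ 2) ≤ Real.log (x ^ 2 + y ^ 2) := by
      rw [hVy]
      refine Real.log_le_log (by rw [← hVy]; positivity) (by linarith [sq_nonneg x])
    rw [Real.log_pow] at h6
    push_cast at h6
    linarith
  have h7 : 0 ≤ 1 / (((m + 2 : ℕ) : ℝ) + x + V - 1) := by
    have : (0 : ℝ) ≤ ((m + 2 : ℕ) : ℝ) := Nat.cast_nonneg _
    have : 0 < ((m + 2 : ℕ) : ℝ) + x + V - 1 := by linarith
    positivity
  have h8 : 3 * (1 / (x + V - 1)) ≤ 3 / (V - 1) := by
    rw [mul_one_div]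
    exact div_le_div_of_nonneg_left (by norm_num) (by linarith) (by linarith)
  linarith

/-- the real part of the digamma function, everywhere -/
lemma dig_lower' {x : ℝ} (hx : 1 / 4 ≤ x) (y : ℝ) :
    -(11 / 2) ≤ (logDeriv Gamma (((x : ℝ) : ℂ) + (y : ℂ) * I)).re := by
  have hx0 : 0 < x := by linarith
  have hre : (((x : ℝ) : ℂ) + (y : ℂ) * I).re = x := by simp
  have h1 := (Complex.continuous_re.tendsto _).comp (digamma_lim (s := ((x : ℝ) : ℂ) + (y : ℂ) * I) (by rw [hre]; exact hx0))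
  refine ge_of_tendsto h1 (Eventually.of_forall fun m => ?_)
  simp only [Function.comp_apply, Complex.sub_re, Complex.re_sum, Complex.log_re, inv_re']
  have hs : ∀ K : ℕ, ∑ k ∈ Finset.range (K + 1), 1 / ((k : ℝ) + x) ≤ 1 / x + (Real.log ((K : ℝ) + x) - Real.log x) := by
    intro K
    induction K with
    | zero => simp
    | succ K ih =>
      rw [Finset.sum_range_succ]
      have h2 : 1 / (((K + 1 : ℕ) : ℝ) + x) ≤ Real.log (((K + 1 : ℕ) : ℝ) + x) - Real.log ((K : ℝ) + x) := by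
        rw [← Real.log_div (by positivity) (by positivity)]
        have h3 := Real.one_sub_inv_le_log_of_pos (show 0 < (((K + 1 : ℕ) : ℝ) + x) / ((K : ℝ) + x) by positivity)
        refine le_trans (le_of_eq ?_) h3
        rw [inv_div]
        push_cast
        field_simp
        ring
      linarith
  have e1 : ∀ k : ℕ, ((k : ℝ) + x) / (((k : ℝ) + x) ^ 2 + y ^ 2) ≤ 1 / ((k : ℝ) + x) := by
    intro k
    have hk : 0 < (k : ℝ) + x := by positivity
    rw [div_le_div_iff₀ (by positivity) hk]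
    nlinarith [sq_nonneg y]
  have e2 : Real.log (((m + 2 : ℕ) : ℝ) + x) ≤ Real.log ‖(((x : ℝ) : ℂ) + (y : ℂ) * I) + ((m : ℂ) + 2)‖ := by
    have h3 : (((x : ℝ) : ℂ) + (y : ℂ) * I) + ((m : ℂ) + 2) = ((((m + 2 : ℕ) : ℝ) + x : ℝ) : ℂ) + ((y : ℝ) : ℂ) * I := by
      push_cast; ring
    refine Real.log_le_log (by positivity) ?_
    rw [h3]
    have h4 := Complex.re_le_norm (((((m + 2 : ℕ) : ℝ) + x : ℝ) : ℂ) + ((y : ℝ) : ℂ) * I)
    have h5 : (((((m + 2 : ℕ) : ℝ) + x : ℝ) : ℂ) + ((y : ℝ) : ℂ) * I).re = ((m + 2 : ℕ) : ℝ) + x := by simp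
    rw [h5] at h4
    exact h4
  have h4 := (Finset.sum_le_sum fun k (_ : k ∈ Finset.range (m + 2)) => e1 k).trans (hs (m + 1))
  have h5 : Real.log (((m + 1 : ℕ) : ℝ) + x) ≤ Real.log (((m + 2 : ℕ) : ℝ) + x) :=
    Real.log_le_log (by positivity) (by push_cast; linarith)
  have h6 : 1 / x ≤ 4 := by
    rw [div_le_iff₀ hx0]
    linarith
  have h7 : -(3 / 2) ≤ Real.log x := by
    have h8 : Real.log (1 / 4) ≤ Real.log x := Real.log_le_log (by norm_num) hx
    have h9 : Real.log (1 / 4) = -(2 * Real.log 2) := by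
      rw [one_div, Real.log_inv]
      have : (4 : ℝ) = 2 ^ 2 := by norm_num
      rw [this, Real.log_pow]
      push_cast
      ring
    rw [h9] at h8
    linarith [Real.log_two_lt_d9]
  linarith

/-- the density -/
lemma GD_eq (L : LFun) (t : ℝ) : GD (L := L) t = Real.log L.N +
    ∑ j, ((logDeriv Gamma ((1 / 2 + t * I + L.a j) / 2)).re - Real.log Real.pi) := by
  unfold GD GA H353.E.gaD
  have e1 : (⟨1 / 2, t⟩ : ℂ) = 1 / 2 + t * I := by
    rw [H370.mk_eq]; push_cast; ring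
  rw [e1, Complex.add_re, Complex.ofReal_re, Complex.re_sum, mul_add, Finset.mul_sum]
  congr 1
  · ring
  · refine Finset.sum_congr rfl fun j _ => ?_
    have e3 : (1 / 2 + (t : ℂ) * I - -L.a j) / 2 = (1 / 2 + t * I + L.a j) / 2 := by ring
    rw [e3, Complex.add_re, Complex.ofReal_re]
    have e5 : (logDeriv Gamma ((1 / 2 + (t : ℂ) * I + L.a j) / 2) / 2).re =
        (logDeriv Gamma ((1 / 2 + (t : ℂ) * I + L.a j) / 2)).re / 2 := by
      rw [show (2 : ℂ) = ((2 : ℝ) : ℂ) by norm_num, Complex.div_ofReal_re]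
    rw [e5]
    ring

lemma pt_eq (L : LFun) (j : Fin L.m) (t : ℝ) : (1 / 2 + (t : ℂ) * I + L.a j) / 2 =
    (((1 / 4 + (L.a j).re / 2 : ℝ)) : ℂ) + (((t + (L.a j).im) / 2 : ℝ) : ℂ) * I := by
  apply Complex.ext
  · simp; ring
  · simp

lemma log_pi_le : Real.log Real.pi ≤ 3 / 2 := by
  have h4 : Real.pi ≤ Real.exp 1 * Real.exp (1 / 2) := by
    have := Real.pi_lt_d2
    have h5 := Real.exp_one_gt_d9
    have h6 : 3 / 2 ≤ Real.exp (1 / 2) := by linarith [Real.add_one_le_exp (1 / 2 : ℝ)]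
    nlinarith
  rw [← Real.exp_add] at h4
  have h5 := Real.log_le_log Real.pi_pos h4
  rw [Real.log_exp] at h5
  linarith

/-- the lower bound of the density, everywhere -/
theorem GD_ge {L : LFun} {A κ e : ℝ} (hL : Bd L A κ e) (v : ℝ) : Real.log L.N - 7 * L.m ≤ GD (L := L) v := by
  rw [GD_eq]
  have h1 : ∑ _j : Fin L.m, (-7 : ℝ) ≤ ∑ j, ((logDeriv Gamma ((1 / 2 + v * I + L.a j) / 2)).re - Real.log Real.pi) := by
    refine Finset.sum_le_sum fun j _ => ?_
    rw [pt_eq]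
    have h2 := dig_lower' (x := 1 / 4 + (L.a j).re / 2) (by linarith [hL.arch_re j]) ((v + (L.a j).im) / 2)
    have h3 := log_pi_le
    linarith
  rw [Finset.sum_const, Finset.card_univ, Fintype.card_fin, nsmul_eq_mul] at h1
  linarith

/-- the lower bound of the density, far out -/
theorem GD_far {L : LFun} {A κ e : ℝ} (hL : Bd L A κ e) {v : ℝ} (hv : A + 4 ≤ |v|) :
    Real.log L.N + L.m * (Real.log ((|v| - A) / (2 * Real.pi)) - 3) ≤ GD (L := L) v := by
  rw [GD_eq]
  have hpi := Real.pi_pos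
  have h1 : ∑ _j : Fin L.m, (Real.log ((|v| - A) / (2 * Real.pi)) - 3) ≤
      ∑ j, ((logDeriv Gamma ((1 / 2 + v * I + L.a j) / 2)).re - Real.log Real.pi) := by
    refine Finset.sum_le_sum fun j _ => ?_
    rw [pt_eq]
    have h0 : |(L.a j).im| ≤ A := (Complex.abs_im_le_norm _).trans (hL.arch_le j)
    have h00 : |v| - A ≤ |v + (L.a j).im| := by
      have := abs_sub_abs_le_abs_sub v (-(L.a j).im)
      rw [abs_neg, sub_neg_eq_add] at this
      linarith
    have h2 : (|v| - A) / 2 ≤ |(v + (L.a j).im) / 2| := by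
      rw [abs_div, abs_two]
      linarith
    have h3 := dig_lower (x := 1 / 4 + (L.a j).re / 2) (y := (v + (L.a j).im) / 2)
      (by linarith [hL.arch_re j]) (by linarith)
    have h4 : Real.log ((|v| - A) / (2 * Real.pi)) = Real.log ((|v| - A) / 2) - Real.log Real.pi := by
      rw [← div_div, Real.log_div (by linarith) hpi.ne']
    have h5 : Real.log ((|v| - A) / 2) ≤ Real.log |(v + (L.a j).im) / 2| := Real.log_le_log (by linarith) h2
    have h6 : 3 / (|(v + (L.a j).im) / 2| - 1) ≤ 3 := by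
      rw [div_le_iff₀ (by linarith)]
      linarith
    linarith
  rw [Finset.sum_const, Finset.card_univ, Fintype.card_fin, nsmul_eq_mul] at h1
  linarith

end Pool.Agent.Zk3.WI
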