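import Pool.Agent.Zk3.WI.Sch
import Pool.Agent.Zk3.WI.Dig
import Pool.Agent.Zk2.LW.G

/-! # Positivity for L-functions of large conductor -/

set_option autoImplicit false
set_option linter.unusedSectionVars false
set_option maxHeartbeats 1000000

open Complex Filter Topology Set MeasureTheory
open scoped ComplexConjugate

namespace Pool.Agent.Zk3.WI

open Pool.Agent.Y23 (TT Fa N2 plancherel N2_nonneg norm_TT_le)
open Pool.Agent.Y23.G (gsq gsq_nonneg gsq_cont gsq_int Hd GD GD_cont LFun GG QQ weil zd aL)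
open Pool.Agent.Zk2.LW (GD_int)

/-- the value at `±1/2` -/
lemma TT_half {a : ℝ} (ha : 0 < a) {f : ℝ → ℂ} (hf : Fa a f) {w : ℂ} (hw : w.re = 1 / 2 ∨ w.re = -(1 / 2)) :
    ‖TT f w‖ ^ 2 ≤ Real.exp a * N2 f := by
  have hN := N2_nonneg f
  -- the integral of the weight
  have hE : ∫ x in Icc (-a) a, Real.exp (2 * w.re * x) ≤ Real.exp a := by
    have h1 : ∫ x in Icc (-a) a, Real.exp (2 * w.re * x) = ∫ x in (-a)..a, Real.exp (2 * w.re * x) := by
      rw [intervalIntegral.integral_of_le (by linarith), integral_Icc_eq_integral_Ioc]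
    rw [h1]
    rcases hw with h | h
    · rw [h]
      have : (fun x : ℝ => Real.exp (2 * (1 / 2) * x)) = fun x => Real.exp x := by funext x; congr 1; ring
      rw [this, integral_exp]
      have := Real.exp_pos (-a)
      linarith
    · rw [h]
      have : (fun x : ℝ => Real.exp (2 * -(1 / 2) * x)) = fun x => Real.exp (-x) := by funext x; congr 1; ring
      rw [this, intervalIntegral.integral_comp_neg (fun x => Real.exp x), integral_exp, neg_neg]
      have := Real.exp_pos (-a)
      linarith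
  have hpt : ∀ t : ℝ, 0 < t → 2 * ‖TT f w‖ ≤ t * N2 f + Real.exp a / t := by
    intro t ht
    have e0 : TT f w = ∫ x in Icc (-a) a, f x * cexp (w * x) := by
      unfold TT
      rw [← integral_indicator measurableSet_Icc]
      congr 1
      funext x
      by_cases hx : x ∈ Icc (-a) a
      · rw [indicator_of_mem hx]
      · rw [indicator_of_notMem hx, hf.2 x (by
          by_contra hcon
          rw [not_lt, abs_le] at hcon
          exact hx ⟨hcon.1, hcon.2⟩), zero_mul]
    have hi1 : IntegrableOn (fun x : ℝ => t * ‖f x‖ ^ 2) (Icc (-a) a) := (hf.sq_int.const_mul t).integrableOn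
    have hi2 : IntegrableOn (fun x : ℝ => Real.exp (2 * w.re * x) / t) (Icc (-a) a) :=
      (Continuous.integrableOn_Icc (by fun_prop))
    have h1 : ‖TT f w‖ ≤ ∫ x in Icc (-a) a, (t * ‖f x‖ ^ 2 + Real.exp (2 * w.re * x) / t) / 2 := by
      rw [e0]
      refine norm_integral_le_of_norm_le ((hi1.add hi2).div_const 2) (Eventually.of_forall fun x => ?_)
      rw [norm_mul, Complex.norm_exp]
      have e1 : (w * (x : ℂ)).re = w.re * x := by simp
      rw [e1]
      set y : ℝ := Real.exp (w.re * x) with hy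
      have e2 : Real.exp (2 * w.re * x) = y ^ 2 := by rw [hy, ← Real.exp_nat_mul]; congr 1; push_cast; ring
      rw [e2]
      have h3 : 0 ≤ (t * ‖f x‖ - y) ^ 2 / t := by positivity
      have e4 : (t * ‖f x‖ - y) ^ 2 / t = t * ‖f x‖ ^ 2 + y ^ 2 / t - 2 * (‖f x‖ * y) := by
        field_simp
        ring
      linarith
    have h2 : ∫ x in Icc (-a) a, (t * ‖f x‖ ^ 2 + Real.exp (2 * w.re * x) / t) / 2 =
        (t * (∫ x in Icc (-a) a, ‖f x‖ ^ 2) + (∫ x in Icc (-a) a, Real.exp (2 * w.re * x)) / t) / 2 := by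
      rw [integral_div, integral_add hi1 hi2, integral_const_mul, integral_div]
    have h3 : ∫ x in Icc (-a) a, ‖f x‖ ^ 2 ≤ N2 f := by
      unfold N2
      exact setIntegral_le_integral hf.sq_int (Eventually.of_forall fun x => sq_nonneg _)
    have h4 : t * (∫ x in Icc (-a) a, ‖f x‖ ^ 2) ≤ t * N2 f := mul_le_mul_of_nonneg_left h3 ht.le
    have h5 : (∫ x in Icc (-a) a, Real.exp (2 * w.re * x)) / t ≤ Real.exp a / t := div_le_div_of_nonneg_right hE ht.le
    rw [h2] at h1
    linarith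
  rcases hN.eq_or_lt with h0 | h0
  · rw [← h0, mul_zero]
    have h1 : ‖TT f w‖ ≤ 0 := by
      by_contra hcon
      rw [not_le] at hcon
      have h2 := hpt (Real.exp a / ‖TT f w‖) (by positivity)
      have h3 : Real.exp a / (Real.exp a / ‖TT f w‖) = ‖TT f w‖ := by
        have := (Real.exp_pos a).ne'
        field_simp
      rw [← h0, mul_zero, zero_add, h3] at h2
      linarith
    have h2 := norm_nonneg (TT f w)
    have h3 : ‖TT f w‖ = 0 := le_antisymm h1 h2
    rw [h3]
    norm_num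
  · set x : ℝ := ‖TT f w‖ with hx
    have hx0 : 0 ≤ x := norm_nonneg _
    rcases hx0.eq_or_lt with h1 | h1
    · rw [← h1, zero_pow (by norm_num)]
      exact mul_nonneg (Real.exp_pos a).le hN
    · have h2 := hpt (x / N2 f) (by positivity)
      rw [div_mul_cancel₀ _ h0.ne', div_div_eq_mul_div] at h2
      have h3 : x ≤ Real.exp a * N2 f / x := by linarith
      rw [le_div_iff₀ h1] at h3
      linarith [sq x]

theorem pos_dir (m : ℕ) {A κ e δ : ℝ} (hκ : 0 ≤ κ) (he : 0 ≤ e) (hδ : 0 < δ) : ∃ C : ℝ, 0 ≤ C ∧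
    ∀ L : LFun, L.m = m → Bd L A κ e → ∀ a : ℝ, 0 < a → (κ + 2 * L.r + δ) * Real.exp a + C ≤ Real.log L.N →
    ∀ f : ℝ → ℂ, Hd a f → N2 f ≤ QQ (D := zd (L := L)) f := by
  obtain ⟨C1, hC1, hS⟩ := schurL hδ hκ he
  have hm : (0 : ℝ) ≤ m := Nat.cast_nonneg _
  refine ⟨C1 + 7 * m + 1, by positivity, fun L hLm hL a ha hlog f hf => ?_⟩
  have hpi := Real.pi_pos
  have hN := N2_nonneg f
  have hr : (0 : ℝ) ≤ L.r := Nat.cast_nonneg _
  rw [weil (L := L) ha hf]
  have h1 := hS L A hL a ha f hf.1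
  -- the poles
  have h2 : |(TT f (1 / 2) * conj (TT f (-(1 / 2)))).re| ≤ Real.exp a * N2 f := by
    refine (Complex.abs_re_le_norm _).trans ?_
    rw [norm_mul, RCLike.norm_conj]
    have k1 := TT_half ha hf.1 (w := 1 / 2) (Or.inl (by norm_num))
    have k2 := TT_half ha hf.1 (w := -(1 / 2)) (Or.inr (by norm_num))
    nlinarith [sq_nonneg (‖TT f (1 / 2)‖ - ‖TT f (-(1 / 2))‖)]
  have h3 := neg_le_of_abs_le h2
  have h4 : -(2 * L.r * (Real.exp a * N2 f)) ≤ 2 * L.r * (TT f (1 / 2) * conj (TT f (-(1 / 2)))).re := by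
    have := mul_le_mul_of_nonneg_left h3 (show (0 : ℝ) ≤ 2 * L.r by positivity)
    linarith
  -- the archimedean place
  have h5 : (Real.log L.N - 7 * m) * N2 f ≤ 1 / (2 * Real.pi) * (∫ v : ℝ, GD (L := L) v * ‖TT f (v * I)‖ ^ 2) := by
    have k1 : ∫ v : ℝ, (Real.log L.N - 7 * m) * ‖TT f (v * I)‖ ^ 2 ≤ ∫ v : ℝ, GD (L := L) v * ‖TT f (v * I)‖ ^ 2 := by
      refine integral_mono ((gsq_int hf.1).const_mul _) (GD_int (L := L) hf) fun v => ?_
      have k2 := GD_ge hL v
      rw [hLm] at k2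
      exact mul_le_mul_of_nonneg_right k2 (sq_nonneg _)
    rw [integral_const_mul, plancherel hf.1] at k1
    have k3 := mul_le_mul_of_nonneg_left k1 (show 0 ≤ 1 / (2 * Real.pi) by positivity)
    refine le_trans (le_of_eq ?_) k3
    field_simp
  have h6 := mul_le_mul_of_nonneg_right hlog hN
  nlinarith

end Pool.Agent.Zk3.WI
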