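import Pool.Agent.Zk4.Dc
import Pool.Agent.Zk3.WI.Pos
import Pool.Agent.Zk3.WI.Cnt

/-! # The sharp local Weil criterion for L-functions, uniformly in the conductor -/

set_option autoImplicit false
set_option linter.unusedSectionVars false
set_option maxHeartbeats 4000000

open Complex Filter Topology Set MeasureTheory Metric
open scoped ComplexConjugate

namespace Pool.Agent.Zk3.WI

open Pool.Agent.Y23 (TT Fa N2 plancherel N2_nonneg norm_TT_le)
open Pool.Agent.Y23.G (Hd GD QQ Zt mu zd aL LFun)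
open Pool.Agent.Zk2.LW (Hd_mono)
open Pool.Agent.Zk4.R2 (param2)
open ArithmeticFunction (vonMangoldt)

/-- the exponential beats the powers: the zeros near the line (after `Pool.Agent.Zk4.R.near_small`) -/
lemma near_small {x p T A M : ℝ} {k : ℕ} (hk : (k : ℝ) = p) (hx : 8 ≤ x) (hp : 1 ≤ p) (hM0 : 0 ≤ M) (hM : M ≤ 755 * x ^ 2)
    (hT : 408 * x * p ≤ T) (hA0 : 0 ≤ A) (hA : A ≤ p ^ 3) :
    64 * A * p * (20 * M) ^ k * (1 + T ^ 2) * Real.exp (-T) ≤ 1 := by
  have hx0 : 0 < x := by linarith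
  have hp0 : 0 < p := by linarith
  have hxp : 8 ≤ x * p := by nlinarith only [hx, hp]
  have hT0 : 3264 ≤ T := by nlinarith only [hT, hxp]
  have h1 : (20 * M) ^ k ≤ Real.exp (4 * x * p) := by
    have h2 : 20 * M ≤ Real.exp (4 * x) := by
      have h3 : 20 * M ≤ 15100 * x ^ 2 := by linarith
      have h4 := Real.pow_div_factorial_le_exp (2 * x) (by linarith) 2
      have h5 : ((2 : ℕ).factorial : ℝ) = 2 := by norm_num [Nat.factorial]
      rw [h5, div_le_iff₀ (by norm_num)] at h4
      have h6 : (7550 : ℝ) ≤ Real.exp (2 * x) := by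
        have h7 : Real.exp 16 ≤ Real.exp (2 * x) := Real.exp_le_exp.2 (by linarith)
        have h8 := Real.exp_one_gt_d9
        have h9 : Real.exp 16 = Real.exp 1 ^ 16 := by rw [← Real.exp_nat_mul]; norm_num
        have h10 : (2 : ℝ) ^ 16 ≤ Real.exp 1 ^ 16 := pow_le_pow_left₀ (by norm_num) (by linarith) _
        have h11 : (7550 : ℝ) ≤ 2 ^ 16 := by norm_num
        linarith
      have h12 : Real.exp (4 * x) = Real.exp (2 * x) * Real.exp (2 * x) := by rw [← Real.exp_add]; congr 1; ring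
      have h13 : 0 < Real.exp (2 * x) := Real.exp_pos _
      have h14 : 2 * x ^ 2 ≤ Real.exp (2 * x) := by
        have : (2 * x) ^ 2 = 4 * x ^ 2 := by ring
        linarith
      rw [h12]
      calc 20 * M ≤ 7550 * (2 * x ^ 2) := by linarith
        _ ≤ Real.exp (2 * x) * Real.exp (2 * x) := mul_le_mul h6 h14 (by positivity) h13.le
    calc (20 * M) ^ k ≤ Real.exp (4 * x) ^ k := pow_le_pow_left₀ (by positivity) h2 k
      _ = Real.exp (4 * x * p) := by rw [← Real.exp_nat_mul, hk]; congr 1; ring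
  have h2 : Real.exp (4 * x * p) ≤ Real.exp (T / 102) := Real.exp_le_exp.2 (by linarith)
  have hpT : p ≤ T := by nlinarith only [hT, hx, hp0]
  have h3 : 1 + T ^ 2 ≤ 2 * T ^ 2 := by nlinarith only [hT0]
  have h4 : T ^ 6 ≤ 46080 * Real.exp (T / 2) := by
    have h5 := Real.pow_div_factorial_le_exp (T / 2) (by linarith) 6
    have h6 : ((6 : ℕ).factorial : ℝ) = 720 := by norm_num [Nat.factorial]
    rw [h6, div_le_iff₀ (by norm_num)] at h5
    have h7 : (T / 2) ^ 6 = T ^ 6 / 64 := by ring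
    rw [h7] at h5
    linarith
  have h5 : 26624 * 46080 ≤ Real.exp (T / 3) := by
    have h6 := Real.pow_div_factorial_le_exp (T / 3) (by linarith) 4
    have h7 : ((4 : ℕ).factorial : ℝ) = 24 := by norm_num [Nat.factorial]
    rw [h7] at h6
    refine le_trans ?_ h6
    rw [le_div_iff₀ (by norm_num)]
    have h8 : (1088 : ℝ) ^ 4 ≤ (T / 3) ^ 4 := pow_le_pow_left₀ (by norm_num) (by linarith) 4
    refine le_trans ?_ h8
    norm_num
  have h6 : A * p ≤ T ^ 4 := by
    calc A * p ≤ p ^ 3 * p := mul_le_mul_of_nonneg_right hA hp0.le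
      _ = p ^ 4 := by ring
      _ ≤ T ^ 4 := pow_le_pow_left₀ hp0.le hpT 4
  have h7 : (20 * M) ^ k ≤ Real.exp (T / 102) := h1.trans h2
  calc 64 * A * p * (20 * M) ^ k * (1 + T ^ 2) * Real.exp (-T)
      = 64 * (A * p) * (20 * M) ^ k * (1 + T ^ 2) * Real.exp (-T) := by ring
    _ ≤ 64 * T ^ 4 * Real.exp (T / 102) * (2 * T ^ 2) * Real.exp (-T) := by
        have : 0 ≤ 20 * M := by positivity
        gcongr
    _ = 128 * T ^ 6 * (Real.exp (T / 102) * Real.exp (-T)) := by ring
    _ ≤ 26624 * T ^ 6 * (Real.exp (T / 102) * Real.exp (-T)) := by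
        gcongr
        norm_num
    _ ≤ 26624 * (46080 * Real.exp (T / 2)) * (Real.exp (T / 102) * Real.exp (-T)) := by gcongr
    _ = 26624 * 46080 * (Real.exp (T / 2) * (Real.exp (T / 102) * Real.exp (-T))) := by ring
    _ ≤ Real.exp (T / 3) * (Real.exp (T / 2) * (Real.exp (T / 102) * Real.exp (-T))) := by gcongr
    _ = Real.exp (T / 3 + (T / 2 + (T / 102 + -T))) := by rw [← Real.exp_add, ← Real.exp_add, ← Real.exp_add]
    _ ≤ 1 := Real.exp_le_one_iff.2 (by linarith)

/-- the case of large supports and small conductors -/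
lemma asy_large (m : ℕ) (hm : 1 ≤ m) (r : ℕ) {A κ e δ C' : ℝ} (hA : 0 ≤ A) (hκ : 0 ≤ κ) (he : 0 ≤ e) (hδ : 0 < δ) (hC' : 0 ≤ C') :
    ∃ C : ℝ, 0 < C ∧ ∀ L : LFun, L.m = m → L.r = r → Bd L A κ e → ∀ a : ℝ, 1 ≤ a →
    Real.log L.N ≤ (κ + 2 * r + δ / 2) * Real.exp a + C' → ∃ c : ℝ, 0 < c ∧ ∀ f : ℝ → ℂ, Hd a f →
    (∀ ρ : Zt (D := zd (L := L)), 1 / 2 + Real.exp (-(C * Real.exp (((κ + 2 * r + δ) * Real.exp a - Real.log L.N) / m))) ≤ (ρ : ℂ).re →
      |(ρ : ℂ).im| ≤ C * Real.exp (((κ + 2 * r + δ) * Real.exp a - Real.log L.N) / m) →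
      ∃ z : ℂ, ‖z - ((ρ : ℂ) - 1 / 2)‖ ≤ Real.exp (-(C * Real.exp (((κ + 2 * r + δ) * Real.exp a - Real.log L.N) / m))) ∧
      |z.re| ≤ 1 ∧ TT f z = 0) → c * N2 f ≤ QQ (D := zd (L := L)) f := by
  obtain ⟨C1, hC1, hS⟩ := schurL (δ := δ / 8) (by positivity) hκ he
  obtain ⟨KZ, hKZ, hZ⟩ := zsumU m A hA
  have hmR : (1 : ℝ) ≤ m := by exact_mod_cast hm
  have hm0 : (0 : ℝ) < m := by linarith
  have hrR : (0 : ℝ) ≤ r := Nat.cast_nonneg _
  set η : ℝ := δ / (8 * (κ + δ)) with hη
  have hη0 : 0 < η := by positivity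
  have hη8 : η ≤ 1 / 8 := by
    rw [hη, div_le_div_iff₀ (by positivity) (by norm_num)]
    linarith
  have hη1 : η ≤ 1 := by linarith
  -- the exponential beats the powers
  set D : ℝ := 256 * 16 / η ^ 2 with hD
  have hD0 : 0 < D := by positivity
  have hlim := tendsto_pow_const_div_const_pow_of_one_lt 4 (show (1 : ℝ) < 2 by norm_num)
  obtain ⟨P0, hP0⟩ := eventually_atTop.1 (hlim.eventually (ge_mem_nhds (show (0 : ℝ) < 1 / D by positivity)))
  have hP00 : (0 : ℝ) ≤ P0 := Nat.cast_nonneg _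
  have hpi := Real.pi_gt_three
  have hpi2 := Real.pi_lt_d2
  -- the constants
  have hLg0 := Pool.Agent.Y23.G.one_le_Lg 0
  set K1 : ℝ := A + 4 + 7 * Real.exp (4 + C1) with hK1
  set KE : ℝ := κ + 2 * r + δ + C' + C1 with hKE
  set D7 : ℝ := KZ * (KE + 1 + Pool.Agent.Y23.G.Lg 0) with hD7
  set K5 : ℝ := 28 * K1 + 22650 / η + (KE + 7 * m + 1) + D7 + P0 + 64 * r + 1 with hK5
  have hK10 : 0 < K1 := by positivity
  have hKE0 : 0 ≤ KE := by positivity
  have hD70 : 0 ≤ D7 := by positivity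
  have hK50 : 1 ≤ K5 := by
    have : 0 ≤ 22650 / η := by positivity
    rw [hK5]
    linarith
  set K6 : ℝ := 51 / η ^ 2 * (4 * K5) with hK6
  have hK60 : 0 < K6 := by positivity
  set C0 : ℝ := K6 * (5040 * (2 * m / δ) ^ 7) * Real.exp C' with hC0
  have hC00 : 0 < C0 := by positivity
  clear_value C0 K6 K5 D7 KE K1 D
  refine ⟨C0, hC00, fun L hLm hLr hL a ha hlogN => ?_⟩
  have ha0 : 0 < a := by linarith
  have hN1 : 1 ≤ L.N := (Pool.Agent.Y23.G.ul (L := L)).hN
  have hlN0 : 0 ≤ Real.log L.N := Real.log_nonneg hN1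
  have hea1 : a + 1 ≤ Real.exp a := Real.add_one_le_exp a
  have hea0 : 0 < Real.exp a := Real.exp_pos a
  have hea2 : 1 ≤ Real.exp a := by linarith
  -- the height
  set G : ℝ := Real.exp (((κ + 2 * r + δ / 2) * Real.exp a + C' - Real.log L.N) / m) with hG
  have hG1 : 1 ≤ G := by
    rw [hG]
    refine Real.one_le_exp (div_nonneg (by linarith) hm0.le)
  have hG0 : 0 < G := by linarith
  clear_value G
  -- the parameters
  set θ : ℝ := η / (4 * a + η) with hθ
  have hθ0 : 0 < θ := by positivity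
  have hθ1 : θ ≤ 1 / 4 := by
    rw [hθ, div_le_div_iff₀ (by positivity) (by norm_num)]
    linarith
  have h1θ : 1 - θ = 4 * a / (4 * a + η) := by rw [hθ]; field_simp; ring
  have hb1 : a / (1 - θ) = a + η / 4 := by rw [h1θ]; field_simp
  have hb : a * (1 + 3 * θ) / (1 - θ) = a + η := by
    rw [h1θ, hθ]
    field_simp
    ring
  have hθb : θ * (a / (1 - θ)) = η / 4 := by rw [hb1, hθ]; field_simp
  have hs0 : 47 / 48 ≤ 1 - θ ^ 2 / 3 := by nlinarith only [hθ0, hθ1]
  set M : ℝ := 4 * Real.exp 2 / (θ ^ 2 * (1 - θ ^ 2 / 3)) with hM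
  have hs00 : 0 < θ ^ 2 * (1 - θ ^ 2 / 3) := mul_pos (by positivity) (by linarith)
  have hMeq : M * (θ ^ 2 * (1 - θ ^ 2 / 3)) = 4 * Real.exp 2 := by rw [hM, div_mul_cancel₀ _ hs00.ne']
  have hM0 : 0 < M := div_pos (by positivity) hs00
  have he2' : Real.exp 2 ≤ 739 / 100 := by
    have h1 := Real.exp_one_lt_d9
    have h2 : Real.exp 2 = Real.exp 1 * Real.exp 1 := by rw [← Real.exp_add]; norm_num
    have h3 := Real.exp_pos 1
    rw [h2]
    nlinarith only [h1, h3]
  have hMle : M ≤ 755 * a ^ 2 / η ^ 2 := by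
    have k1 : M * θ ^ 2 * (47 / 48) ≤ M * θ ^ 2 * (1 - θ ^ 2 / 3) := mul_le_mul_of_nonneg_left hs0 (by positivity)
    have k2 : M * θ ^ 2 * (1 - θ ^ 2 / 3) = 4 * Real.exp 2 := by rw [← hMeq]; ring
    have k3 : M * θ ^ 2 ≤ 151 / 5 := by linarith
    have k4 : η / (5 * a) ≤ θ := by
      rw [hθ]
      exact div_le_div_of_nonneg_left hη0.le (by positivity) (by linarith)
    have k5 : M * (η / (5 * a)) ^ 2 ≤ 151 / 5 :=
      (mul_le_mul_of_nonneg_left (pow_le_pow_left₀ (by positivity) k4 2) hM0.le).trans k3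
    rw [le_div_iff₀ (by positivity)]
    have k6 : M * (η / (5 * a)) ^ 2 = M * η ^ 2 / (25 * a ^ 2) := by field_simp; norm_num
    rw [k6, div_le_iff₀ (by positivity)] at k5
    linarith
  clear_value M θ
  set lam : ℝ := (κ + δ / 8) * Real.exp (a + η) + C1 with hlam
  have hea : Real.exp (a + η) ≤ (1 + 2 * η) * Real.exp a := by
    rw [Real.exp_add, mul_comm]
    refine mul_le_mul_of_nonneg_right ?_ (Real.exp_pos a).le
    have := Real.abs_exp_sub_one_le (x := η) (by rw [abs_of_pos hη0]; exact hη1)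
    rw [abs_of_pos hη0] at this
    have h2 := (abs_le.1 this).2
    linarith
  have hlam_le : lam ≤ (κ + δ / 2) * Real.exp a + C1 := by
    have h1 : (κ + δ / 8) * Real.exp (a + η) ≤ (κ + δ / 8) * ((1 + 2 * η) * Real.exp a) :=
      mul_le_mul_of_nonneg_left hea (by positivity)
    have h3 : (κ + δ / 8) * η ≤ δ / 8 := by
      rw [hη, mul_div_assoc', div_le_iff₀ (by positivity)]
      nlinarith only [hδ, hκ]
    have h2 : (κ + δ / 8) * ((1 + 2 * η) * Real.exp a) ≤ (κ + δ / 2) * Real.exp a := by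
      rw [← mul_assoc]
      refine mul_le_mul_of_nonneg_right ?_ (Real.exp_pos a).le
      linarith
    linarith
  have hlam0 : 0 ≤ lam := by positivity
  clear_value lam
  have hlamK : lam ≤ KE * Real.exp a := by
    have h1 : C1 ≤ C1 * Real.exp a := le_mul_of_one_le_right hC1 hea2
    have h2 : 0 ≤ (2 * r + δ / 2 + C') * Real.exp a := by positivity
    rw [hKE]
    linarith
  have hlogK : Real.log L.N + 1 ≤ (KE + 1) * Real.exp a := by
    have h1 : C' ≤ C' * Real.exp a := le_mul_of_one_le_right hC' hea2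
    have h2 : 0 ≤ (δ / 2 + C1) * Real.exp a := by positivity
    rw [hKE]
    linarith
  set T1 : ℝ := A + 4 + 2 * Real.pi * Real.exp ((lam + 1 - Real.log L.N) / m + 3) with hT1
  have hT10 : 0 < T1 := by positivity
  have hT1le : T1 ≤ K1 * G := by
    have h1 : Real.exp ((lam + 1 - Real.log L.N) / m + 3) ≤ Real.exp (4 + C1) * G := by
      rw [hG, ← Real.exp_add]
      refine Real.exp_le_exp.2 ?_
      have h2 : (lam + 1 - Real.log L.N) / m ≤ ((κ + 2 * r + δ / 2) * Real.exp a + C' - Real.log L.N) / m + (C1 + 1) / m := by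
        rw [← add_div]
        refine div_le_div_of_nonneg_right ?_ hm0.le
        have : 0 ≤ 2 * (r : ℝ) * Real.exp a := by positivity
        linarith
      have h3 : (C1 + 1) / m ≤ C1 + 1 := div_le_self (by linarith) hmR
      linarith
    have h2 : 2 * Real.pi * Real.exp ((lam + 1 - Real.log L.N) / m + 3) ≤ 7 * (Real.exp (4 + C1) * G) := by
      refine mul_le_mul (by linarith) h1 (Real.exp_pos _).le (by norm_num)
    have h3 : A + 4 ≤ (A + 4) * G := le_mul_of_one_le_right (by linarith) hG1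
    rw [hT1, hK1]
    linarith
  clear_value T1
  set Z : ℝ := D7 * Real.exp a with hZd
  have hZ0 : 0 ≤ Z := by positivity
  have hZle : ∑' ρ : Zt (D := zd (L := L)), (mu (D := zd (L := L)) ρ : ℝ) * (1 / (1 + (ρ : ℂ).im ^ 2)) ≤ Z := by
    have h1 := hZ L κ e hLm hL 0
    simp only [sub_zero] at h1
    refine h1.trans ?_
    rw [hZd, hD7]
    have h2 : (Real.log L.N + 1) + Pool.Agent.Y23.G.Lg 0 ≤ (KE + 1 + Pool.Agent.Y23.G.Lg 0) * Real.exp a := by
      have h3 : Pool.Agent.Y23.G.Lg 0 ≤ Pool.Agent.Y23.G.Lg 0 * Real.exp a := le_mul_of_one_le_right (by linarith) hea2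
      linarith
    have h3 := mul_le_mul_of_nonneg_left h2 (show 0 ≤ KZ by linarith)
    linarith
  -- the order
  set X : ℝ := K5 * Real.exp (6 * a) * G with hX
  have he4 : 1 ≤ Real.exp (6 * a) := Real.one_le_exp (by positivity)
  have hX1 : 1 ≤ X := by
    rw [hX]
    have : 1 ≤ K5 * Real.exp (6 * a) := by nlinarith only [hK50, he4]
    nlinarith only [this, hG1]
  have hX0 : 0 < X := by linarith
  clear_value X
  have hXge : ∀ {K E : ℝ}, 0 ≤ K → 0 ≤ E → K ≤ K5 → E ≤ Real.exp (6 * a) * G → K * E ≤ X := by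
    intro K E hK0 hE0 hK hE
    rw [hX]
    calc K * E ≤ K5 * (Real.exp (6 * a) * G) := mul_le_mul hK hE hE0 (by linarith)
      _ = _ := by ring
  have h22 : 0 ≤ 22650 / η := by positivity
  have hea4 : Real.exp a ≤ Real.exp (6 * a) * G := by
    have h1 : Real.exp a ≤ Real.exp (6 * a) := Real.exp_le_exp.2 (by linarith)
    have h2 : Real.exp (6 * a) ≤ Real.exp (6 * a) * G := le_mul_of_one_le_right (by positivity) hG1
    linarith
  set p : ℕ := 2 * ⌈X⌉₊ with hp
  have hpX : X ≤ p := by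
    rw [hp]
    push_cast
    have := Nat.le_ceil X
    linarith
  have hp1 : 1 ≤ p := by
    have := Nat.ceil_pos.2 hX0
    omega
  have hpc1 : (1 : ℝ) ≤ p := by exact_mod_cast hp1
  clear_value p
  have hb1pos : 0 < a / (1 - θ) := by rw [hb1]; positivity
  have hpT1 : 14 * (a / (1 - θ)) * T1 ≤ p := by
    refine le_trans ?_ hpX
    have h1 : 14 * (a / (1 - θ)) ≤ 28 * Real.exp a := by
      rw [hb1]
      linarith
    have h2 : 14 * (a / (1 - θ)) * T1 ≤ 28 * Real.exp a * (K1 * G) := mul_le_mul h1 hT1le hT10.le (by positivity)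
    have h3 : 28 * K1 * (Real.exp a * G) ≤ X := by
      refine hXge (by positivity) (by positivity) ?_ ?_
      · rw [hK5]
        linarith
      · refine mul_le_mul_of_nonneg_right (Real.exp_le_exp.2 (by linarith)) hG0.le
    calc _ ≤ _ := h2
      _ = 28 * K1 * (Real.exp a * G) := by ring
      _ ≤ X := h3
  have hpM1 : 120 * M * (θ * (a / (1 - θ))) ≤ p := by
    refine le_trans ?_ hpX
    rw [hθb]
    have h1 : 120 * M * (η / 4) ≤ 22650 / η * Real.exp a ^ 2 := by
      calc 120 * M * (η / 4) = 30 * η * M := by ring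
        _ ≤ 30 * η * (755 * a ^ 2 / η ^ 2) := mul_le_mul_of_nonneg_left hMle (by positivity)
        _ = 22650 / η * a ^ 2 := by field_simp; norm_num
        _ ≤ 22650 / η * Real.exp a ^ 2 := by
            refine mul_le_mul_of_nonneg_left ?_ h22
            exact pow_le_pow_left₀ ha0.le (by linarith) 2
    refine h1.trans (hXge h22 (by positivity) ?_ ?_)
    · rw [hK5]
      linarith
    · have h2 : Real.exp a ^ 2 ≤ Real.exp (6 * a) := by
        rw [← Real.exp_nat_mul]
        refine Real.exp_le_exp.2 ?_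
        push_cast
        linarith
      exact h2.trans (le_mul_of_one_le_right (by positivity) hG1)
  have hpP0 : P0 ≤ p := by
    have : (P0 : ℝ) ≤ p := by
      refine le_trans ?_ hpX
      have h1 := hXge (K := P0) (E := 1) hP00 zero_le_one (by rw [hK5]; linarith) (by linarith)
      linarith
    exact_mod_cast this
  have h2p := hP0 p hpP0
  rw [div_le_iff₀ (by positivity), one_div_mul_eq_div, le_div_iff₀ hD0] at h2p
  have h2p' : D * (p : ℝ) ^ 4 ≤ 2 ^ p := by linarith
  have hDbig : 256 * 16 ≤ D := by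
    rw [hD, le_div_iff₀ (by positivity)]
    have : η ^ 2 ≤ 1 := pow_le_one₀ hη0.le hη1
    linarith
  have hpow : ∀ k : ℕ, k ≤ 4 → (p : ℝ) ^ k ≤ (p : ℝ) ^ 4 := fun k hk => pow_le_pow_right₀ hpc1 hk
  have hlamp : 1 + lam + 7 * m ≤ p := by
    refine le_trans ?_ hpX
    have h1 := hXge (K := KE + 7 * m + 1) (E := Real.exp a) (by positivity) hea0.le (by rw [hK5]; linarith) hea4
    have h2 : (7 * m + 1 : ℝ) ≤ (7 * m + 1) * Real.exp a := le_mul_of_one_le_right (by positivity) hea2
    linarith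
  have haep : 64 * r * (a * Real.exp a) ≤ p := by
    refine le_trans ?_ hpX
    refine hXge (by positivity) (by positivity) (by rw [hK5]; linarith) ?_
    have h1 : a * Real.exp a ≤ Real.exp a * Real.exp a := mul_le_mul_of_nonneg_right (by linarith) hea0.le
    have h2 : Real.exp a * Real.exp a ≤ Real.exp (6 * a) := by
      rw [← Real.exp_add]
      exact Real.exp_le_exp.2 (by linarith)
    exact (h1.trans h2).trans (le_mul_of_one_le_right (by positivity) hG1)
  have haZ : a * Real.exp (4 * a) * Z ≤ p := by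
    refine le_trans ?_ hpX
    have h1 : a * Real.exp (4 * a) * Z ≤ D7 * Real.exp (6 * a) := by
      rw [hZd]
      have h2 : Real.exp (6 * a) = Real.exp a * Real.exp (4 * a) * Real.exp a := by
        rw [← Real.exp_add, ← Real.exp_add]; congr 1; ring
      rw [h2]
      have h3 : a * (Real.exp (4 * a) * (D7 * Real.exp a)) ≤ Real.exp a * (Real.exp (4 * a) * (D7 * Real.exp a)) :=
        mul_le_mul_of_nonneg_right (by linarith) (by positivity)
      linarith
    refine h1.trans (hXge hD70 (by positivity) (by rw [hK5]; linarith) ?_)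
    exact le_mul_of_one_le_right (by positivity) hG1
  have haZ2 : a * Real.exp (2 * a) * Z ≤ p := by
    refine le_trans ?_ haZ
    have h1 : Real.exp (2 * a) ≤ Real.exp (4 * a) := Real.exp_le_exp.2 (by linarith)
    gcongr
  set T : ℝ := 51 * a * p / η ^ 2 with hT
  have hTT : T ≤ C0 * Real.exp (((κ + 2 * r + δ) * Real.exp a - Real.log L.N) / m) := by
    have k2 : (p : ℝ) ≤ 4 * X := by
      have h1 := (Nat.ceil_lt_add_one hX0.le).le
      rw [hp]
      push_cast
      linarith
    have k3 : T ≤ K6 * Real.exp a ^ 7 * G := by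
      calc T = 51 / η ^ 2 * (a * p) := by rw [hT]; ring
        _ ≤ 51 / η ^ 2 * (Real.exp a * (4 * X)) := by
            refine mul_le_mul_of_nonneg_left ?_ (by positivity)
            exact mul_le_mul (by linarith) k2 (by linarith) hea0.le
        _ = K6 * Real.exp a ^ 7 * G := by
            have : Real.exp (6 * a) = Real.exp a ^ 6 := by rw [← Real.exp_nat_mul]; norm_num
            rw [hX, hK6, this]
            ring
    set w : ℝ := δ / (2 * m) * Real.exp a with hw
    have hw0 : 0 ≤ w := by positivity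
    have k4 : Real.exp a ^ 7 ≤ 5040 * (2 * m / δ) ^ 7 * Real.exp w := by
      have h1 := Real.pow_div_factorial_le_exp w hw0 7
      have h2 : ((7 : ℕ).factorial : ℝ) = 5040 := by norm_num [Nat.factorial]
      rw [h2, div_le_iff₀ (by norm_num)] at h1
      have h3 : Real.exp a ^ 7 = (2 * m / δ) ^ 7 * w ^ 7 := by
        rw [← mul_pow, hw]
        congr 1
        field_simp
      rw [h3]
      have h4 := mul_le_mul_of_nonneg_left h1 (show 0 ≤ (2 * m / δ) ^ 7 by positivity)
      linarith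
    have k5 : Real.exp w * G ≤ Real.exp C' * Real.exp (((κ + 2 * r + δ) * Real.exp a - Real.log L.N) / m) := by
      rw [hG, ← Real.exp_add, ← Real.exp_add]
      refine Real.exp_le_exp.2 ?_
      have h1 : C' / m ≤ C' := div_le_self hC' hmR
      have h2 : w + ((κ + 2 * r + δ / 2) * Real.exp a + C' - Real.log L.N) / m =
          C' / m + ((κ + 2 * r + δ) * Real.exp a - Real.log L.N) / m := by
        rw [hw]
        field_simp
        ring
      rw [h2]
      linarith
    calc T ≤ K6 * Real.exp a ^ 7 * G := k3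
      _ ≤ K6 * (5040 * (2 * m / δ) ^ 7 * Real.exp w) * G := by gcongr
      _ = K6 * (5040 * (2 * m / δ) ^ 7) * (Real.exp w * G) := by ring
      _ ≤ K6 * (5040 * (2 * m / δ) ^ 7) * (Real.exp C' * Real.exp (((κ + 2 * r + δ) * Real.exp a - Real.log L.N) / m)) := by
          gcongr
      _ = _ := by rw [hC0]; ring
  clear_value T
  have hT1' : 1 ≤ T := by
    rw [hT, le_div_iff₀ (by positivity)]
    have h1 : η ^ 2 ≤ 1 := pow_le_one₀ hη0.le hη1
    have h2 := mul_le_mul ha hpc1 zero_le_one ha0.le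
    linarith only [h1, h2]
  obtain ⟨c, hc, hmain⟩ := param2 (L := L) (η := Real.exp (-T)) (a := a) (θ := θ) (M := M) (y := η / (40 * a)) (T := T) (T1 := T1) (lam := lam)
    (κ := 1) (D0 := 7 * m) (Z := Z) (p := p) ha0 hθ0 hθ1 hMeq (by
      rw [hb, hlam]
      exact fun g hg => hS L A hL (a + η) (by positivity) g hg) hZle one_pos (by positivity) hT10.le (fun v hv => by
      have hv4 : A + 4 ≤ |v| := by
        have : 0 ≤ 2 * Real.pi * Real.exp ((lam + 1 - Real.log L.N) / m + 3) := by positivity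
        rw [hT1] at hv
        linarith
      have h1 := GD_far hL hv4
      rw [hLm] at h1
      have h2 : (lam + 1 - Real.log L.N) / m + 3 ≤ Real.log ((|v| - A) / (2 * Real.pi)) := by
        rw [Real.le_log_iff_exp_le (by
          have : 0 < |v| - A := by linarith
          positivity), le_div_iff₀ (by positivity)]
        rw [hT1] at hv
        linarith
      have h3 : (m : ℝ) * ((lam + 1 - Real.log L.N) / m) = lam + 1 - Real.log L.N := by field_simp
      have h4 := mul_le_mul_of_nonneg_left (sub_le_sub_right h2 3) hm0.le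
      rw [add_sub_cancel_right, h3] at h4
      linarith) (fun v => by
      have h1 := GD_ge hL v
      rw [hLm] at h1
      linarith) ⟨⌈X⌉₊, by rw [hp]; ring⟩ hp1 hpT1 hpM1 (by
      have h2 : (p : ℝ) ^ 2 ≤ 2 ^ p := by
        have h3 : (p : ℝ) ^ 2 ≤ (p : ℝ) ^ 4 := hpow 2 (by norm_num)
        have h4 : (p : ℝ) ^ 4 ≤ D * (p : ℝ) ^ 4 := le_mul_of_one_le_left (by positivity) (by linarith)
        linarith
      calc (1 + lam + 7 * m) * (p : ℝ) ≤ p * p := mul_le_mul_of_nonneg_right hlamp (by positivity)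
        _ = (p : ℝ) ^ 2 := by ring
        _ ≤ 7 * 1 * 2 ^ p := by
            have : (0 : ℝ) ≤ 2 ^ p := by positivity
            linarith) (by
      rw [hLr]
      have h3 : (p : ℝ) ^ 2 ≤ (p : ℝ) ^ 4 := hpow 2 (by norm_num)
      have h7 : (0 : ℝ) ≤ (p : ℝ) ^ 4 := by positivity
      calc 64 * r * (a * Real.exp a) * (p : ℝ) ≤ p * p := mul_le_mul_of_nonneg_right haep (by positivity)
        _ = (p : ℝ) ^ 2 := by ring
        _ ≤ (p : ℝ) ^ 4 := h3
        _ ≤ D * (p : ℝ) ^ 4 := le_mul_of_one_le_left h7 (by linarith)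
        _ ≤ 1 * 2 ^ p := by linarith) (by
      rw [hθb]
      calc 256 * (a * Real.exp (2 * a)) * Z * (p : ℝ) ^ 3 = 256 * (a * Real.exp (2 * a) * Z) * (p : ℝ) ^ 3 := by ring
        _ ≤ 256 * p * (p : ℝ) ^ 3 := by gcongr
        _ = (η / 4) ^ 2 * (D * (p : ℝ) ^ 4) := by
            rw [hD]
            field_simp
            norm_num
        _ ≤ (η / 4) ^ 2 * 2 ^ p := mul_le_mul_of_nonneg_left h2p' (by positivity)
        _ = 1 * (η / 4) ^ 2 * 2 ^ p := by ring) (by positivity) (by
      have hy1 : η / (40 * a) ≤ 1 := by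
        rw [div_le_one (by positivity)]
        linarith
      calc (η / (40 * a)) ^ 3 * (1 + η / (40 * a)) * (256 / 27 * M)
          ≤ (η / (40 * a)) ^ 3 * 2 * (256 / 27 * (755 * a ^ 2 / η ^ 2)) := by
            gcongr
            linarith
        _ = (2 * 256 * 755 / (27 * 64000)) * (η / a) := by
            field_simp
            norm_num
        _ ≤ (2 * 256 * 755 / (27 * 64000)) * 1 := by
            refine mul_le_mul_of_nonneg_left ?_ (by norm_num)
            rw [div_le_one ha0]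
            linarith
        _ ≤ 1 / 2 := by norm_num) hT1' (by
      rw [hθb]
      have h1 : Real.exp (η / 4 / p) ≤ 2 := by
        have h2 : η / 4 / p ≤ 1 / 2 := by
          rw [div_le_iff₀ (by positivity)]
          linarith
        have h3 : Real.exp (1 / 2) ≤ 2 := by
          have h3 : Real.exp (1 / 2) ^ 2 = Real.exp 1 := by rw [← Real.exp_nat_mul]; norm_num
          have h4 := Real.exp_one_lt_d9
          have h5 := Real.exp_pos (1 / 2)
          nlinarith only [h3, h4, h5]
        exact (Real.exp_le_exp.2 h2).trans h3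
      have h2 : (Real.exp (η / 4 / p) * p) ^ 2 ≤ (2 * p) ^ 2 := by gcongr
      refine h2.trans ?_
      have e : η / (40 * a) * (η / 4 * T) ^ 2 = 2601 / 640 * (a * (p : ℝ) ^ 2) / η := by
        rw [hT]
        field_simp
        norm_num
      rw [e, le_div_iff₀ hη0]
      have h3 : (0 : ℝ) ≤ (p : ℝ) ^ 2 := by positivity
      have h4 := mul_le_mul_of_nonneg_right hη1 h3
      have h5 := mul_le_mul_of_nonneg_right ha h3
      linarith only [h3, h4, h5]) (Real.exp_pos _) (by rw [← Real.exp_zero]; exact Real.exp_lt_exp.2 (by linarith)) (by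
      have e1 : T = 51 / η * (a / η) * p := by
        rw [hT]
        field_simp
      have h1 : 408 ≤ 51 / η := by
        rw [le_div_iff₀ hη0]
        linarith
      have h2 : 8 ≤ a / η := by
        rw [le_div_iff₀ hη0]
        linarith
      have h3 : 0 ≤ a / η * p := by positivity
      have h5 := near_small (x := a / η) (p := p) (A := a * Real.exp (4 * a) * Z) (T := T) (M := M) rfl h2 hpc1 hM0.le (by
        refine hMle.trans (le_of_eq ?_)
        field_simp) (by
        rw [e1]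
        have h4 := mul_le_mul_of_nonneg_right h1 h3
        linarith) (by positivity) (haZ.trans (by
          have := pow_le_pow_right₀ hpc1 (show 1 ≤ 3 by norm_num)
          rwa [pow_one] at this))
      refine le_trans (le_of_eq ?_) h5
      ring)
  have hee := Real.exp_le_exp.2 (neg_le_neg hTT)
  refine ⟨c, hc, fun f hf hz => hmain f hf fun ρ h1 h2 => ?_⟩
  obtain ⟨z, hz1, hz2⟩ := hz ρ (le_trans (by linarith only [hee]) h1) (h2.trans hTT)
  exact ⟨z, hz1.trans hee, hz2⟩

/-- THE SHARP LOCAL CRITERION, uniformly in the conductor: for functions supported in an interval of length `2a` only the zeros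
with `|Im| ≤ T` and `Re ≥ 1/2 + e^{-T}` matter, up to `e^{-T}`, `T = C (e^{(κ + 2r + δ) e^a} / N)^{1/m}`, and none if `N` is large -/
theorem asy (m : ℕ) (hm : 1 ≤ m) (r : ℕ) {A κ e δ : ℝ} (hA : 0 ≤ A) (hκ : 0 ≤ κ) (he : 0 ≤ e) (hδ : 0 < δ) :
    ∃ C : ℝ, 0 < C ∧ ∀ L : LFun, L.m = m → L.r = r → Bd L A κ e → ∀ a : ℝ, 0 < a → ∃ c : ℝ, 0 < c ∧ ∀ f : ℝ → ℂ, Hd a f →
    ((κ + 2 * r + δ) * Real.exp a + C ≤ Real.log L.N ∨
    ∀ ρ : Zt (D := zd (L := L)), 1 / 2 + Real.exp (-(C * Real.exp (((κ + 2 * r + δ) * Real.exp a - Real.log L.N) / m))) ≤ (ρ : ℂ).re →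
      |(ρ : ℂ).im| ≤ C * Real.exp (((κ + 2 * r + δ) * Real.exp a - Real.log L.N) / m) →
      ∃ z : ℂ, ‖z - ((ρ : ℂ) - 1 / 2)‖ ≤ Real.exp (-(C * Real.exp (((κ + 2 * r + δ) * Real.exp a - Real.log L.N) / m))) ∧
      |z.re| ≤ 1 ∧ TT f z = 0) → c * N2 f ≤ QQ (D := zd (L := L)) f := by
  obtain ⟨C', hC', hpos⟩ := pos_dir m (A := A) hκ he (half_pos hδ)
  obtain ⟨C0, hC0, h⟩ := asy_large m hm r hA hκ he hδ hC'
  have hmR : (1 : ℝ) ≤ m := by exact_mod_cast hm
  have hm0 : (0 : ℝ) < m := by linarith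
  have hrR : (0 : ℝ) ≤ r := Nat.cast_nonneg _
  have hK : 0 ≤ κ + 2 * r + δ := by positivity
  refine ⟨C0 * Real.exp ((κ + 2 * r + δ) * Real.exp 1) + C', by positivity, fun L hLm hLr hL a ha => ?_⟩
  have hea : 0 < Real.exp a := Real.exp_pos a
  set C : ℝ := C0 * Real.exp ((κ + 2 * r + δ) * Real.exp 1) + C' with hC
  have hC1 : C' ≤ C := by
    have : 0 ≤ C0 * Real.exp ((κ + 2 * r + δ) * Real.exp 1) := by positivity
    linarith
  rcases le_or_gt ((κ + 2 * r + δ / 2) * Real.exp a + C') (Real.log L.N) with hlog | hlog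
  · refine ⟨1, one_pos, fun f hf _ => ?_⟩
    rw [one_mul]
    refine hpos L hLm hL a ha ?_ f hf
    rw [hLr]
    exact hlog
  -- no condition is impossible here
  have hno : ¬ ((κ + 2 * r + δ) * Real.exp a + C ≤ Real.log L.N) := by
    intro h1
    have : 0 ≤ δ / 2 * Real.exp a := by positivity
    linarith
  set a' : ℝ := max a 1 with ha'
  have haa : a ≤ a' := le_max_left _ _
  have ha1 : 1 ≤ a' := le_max_right _ _
  have hlog' : Real.log L.N ≤ (κ + 2 * r + δ / 2) * Real.exp a' + C' := by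
    have : (κ + 2 * r + δ / 2) * Real.exp a ≤ (κ + 2 * r + δ / 2) * Real.exp a' :=
      mul_le_mul_of_nonneg_left (Real.exp_le_exp.2 haa) (by positivity)
    linarith
  obtain ⟨c, hc, h2⟩ := h L hLm hLr hL a' ha1 hlog'
  have hle : C0 * Real.exp (((κ + 2 * r + δ) * Real.exp a' - Real.log L.N) / m) ≤
      C * Real.exp (((κ + 2 * r + δ) * Real.exp a - Real.log L.N) / m) := by
    have h3 : Real.exp (((κ + 2 * r + δ) * Real.exp a' - Real.log L.N) / m) ≤
        Real.exp ((κ + 2 * r + δ) * Real.exp 1) * Real.exp (((κ + 2 * r + δ) * Real.exp a - Real.log L.N) / m) := by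
      rw [← Real.exp_add]
      refine Real.exp_le_exp.2 ?_
      have h4 : ((κ + 2 * r + δ) * Real.exp a' - Real.log L.N) / m =
          (κ + 2 * r + δ) * (Real.exp a' - Real.exp a) / m + ((κ + 2 * r + δ) * Real.exp a - Real.log L.N) / m := by
        rw [← add_div]
        congr 1
        ring
      rw [h4]
      have h5 : Real.exp a' - Real.exp a ≤ Real.exp 1 := by
        rcases le_total a 1 with h6 | h6
        · rw [ha', max_eq_right h6]
          linarith
        · rw [ha', max_eq_left h6, sub_self]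
          exact (Real.exp_pos 1).le
      have h6 : 0 ≤ Real.exp a' - Real.exp a := sub_nonneg.2 (Real.exp_le_exp.2 haa)
      have h7 : (κ + 2 * r + δ) * (Real.exp a' - Real.exp a) / m ≤ (κ + 2 * r + δ) * (Real.exp a' - Real.exp a) :=
        div_le_self (by positivity) hmR
      have h8 := mul_le_mul_of_nonneg_left h5 hK
      linarith
    have h9 : 0 < Real.exp (((κ + 2 * r + δ) * Real.exp a - Real.log L.N) / m) := Real.exp_pos _
    calc C0 * Real.exp (((κ + 2 * r + δ) * Real.exp a' - Real.log L.N) / m)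
        ≤ C0 * (Real.exp ((κ + 2 * r + δ) * Real.exp 1) * Real.exp (((κ + 2 * r + δ) * Real.exp a - Real.log L.N) / m)) :=
          mul_le_mul_of_nonneg_left h3 hC0.le
      _ = C0 * Real.exp ((κ + 2 * r + δ) * Real.exp 1) * Real.exp (((κ + 2 * r + δ) * Real.exp a - Real.log L.N) / m) := by ring
      _ ≤ C * Real.exp (((κ + 2 * r + δ) * Real.exp a - Real.log L.N) / m) := by
          refine mul_le_mul_of_nonneg_right ?_ h9.le
          linarith
  refine ⟨c, hc, fun f hf hz => ?_⟩
  have hz' := hz.resolve_left hno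
  have hee := Real.exp_le_exp.2 (neg_le_neg hle)
  refine h2 f (Hd_mono hf haa) fun ρ h3 h4 => ?_
  obtain ⟨z, hz1, hz2⟩ := hz' ρ (le_trans (by linarith only [hee]) h3) (h4.trans hle)
  exact ⟨z, hz1.trans hee, hz2⟩

end Pool.Agent.Zk3.WI
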