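import Pool.Agent.Zk2.LX.S
import Pool.Agent.Zk3.WI.Def

/-! # Schur's test for the primes, any L-function (after `Pool.Agent.Zk2.LX.S`) -/

set_option autoImplicit false
set_option maxHeartbeats 1000000

open Complex Filter Topology Set MeasureTheory
open scoped ComplexConjugate

namespace Pool.Agent.Zk3.WI

open Pool.Agent.Y23 (Fa N2 N2_nonneg)
open Pool.Agent.Y23.G (aL LFun)
open Pool.Agent.Zk2.LX (ww ww_pos ww_cont phi1 phi2 phi1_nonneg phi2_nonneg phi1_int phi2_int one_shift)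

/-- Schur's test -/
theorem schurW {w : ℕ → ℝ} (hwn : ∀ n, 0 ≤ w n) {aa : ℕ → ℂ} (haa : ∀ n : ℕ, 1 ≤ n → ‖aa n‖ ≤ w n / Real.sqrt n)
    {b c e0 d : ℝ} (hb : 0 < b) (h1 : ∀ y : ℝ, 1 ≤ y → y ≤ Real.exp (2 * b) →
    ∑ n ∈ Finset.Icc 1 ⌊y⌋₊, w n ≤ c * y + e0)
    (h2 : ∑ n ∈ Finset.Icc 1 ⌊Real.exp (2 * b)⌋₊, w n / n ≤ d) {g : ℝ → ℂ} (hg : Fa b g) :
    2 * (∑ n ∈ Finset.Icc 1 ⌊Real.exp (2 * b)⌋₊, aa n * ∫ x : ℝ, g (x + Real.log n) * conj (g x)).re ≤
      (c * Real.exp b + e0 + d) * N2 g := by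
  set N : ℕ := ⌊Real.exp (2 * b)⌋₊ with hN
  -- the multiplier
  have hS : ∀ x : ℝ, |x| ≤ b → ∑ n ∈ Finset.Icc 1 N, w n / Real.sqrt n * (phi1 b (Real.log n) x + phi2 b (Real.log n) x) ≤
      c * Real.exp b + e0 + d := by
    intro x hx
    obtain ⟨hx1, hx2⟩ := abs_le.1 hx
    have hw := ww_pos x
    have hfil : ∀ z : ℝ, -b ≤ z → z ≤ b → ∑ n ∈ (Finset.Icc 1 N).filter (fun n : ℕ => Real.log n ≤ b - z), w n ≤
        c * Real.exp (b - z) + e0 := by
      intro z hz1 hz2
      have e : (Finset.Icc 1 N).filter (fun n : ℕ => Real.log n ≤ b - z) = Finset.Icc 1 ⌊Real.exp (b - z)⌋₊ := by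
        ext n
        rw [Finset.mem_filter, Finset.mem_Icc, Finset.mem_Icc]
        constructor
        · rintro ⟨⟨k1, k2⟩, k3⟩
          refine ⟨k1, Nat.le_floor ?_⟩
          rwa [← Real.log_le_iff_le_exp (by exact_mod_cast k1)]
        · rintro ⟨k1, k2⟩
          have k3 : (n : ℝ) ≤ Real.exp (b - z) := (Nat.le_floor_iff (Real.exp_pos _).le).1 k2
          refine ⟨⟨k1, ?_⟩, ?_⟩
          · rw [hN]
            refine Nat.le_floor (k3.trans (Real.exp_le_exp.2 (by linarith)))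
          · rwa [Real.log_le_iff_le_exp (by exact_mod_cast k1)]
      rw [e]
      exact h1 _ (Real.one_le_exp (by linarith)) (Real.exp_le_exp.2 (by linarith))
    have hfil2 : ∀ z : ℝ, ∑ n ∈ (Finset.Icc 1 N).filter (fun n : ℕ => Real.log n ≤ b - z), w n / n ≤ d := by
      intro z
      refine le_trans (Finset.sum_le_sum_of_subset_of_nonneg (Finset.filter_subset _ _) fun n _ _ => ?_) h2
      exact div_nonneg (hwn n) (Nat.cast_nonneg _)
    have hsq : ∀ n : ℕ, 1 ≤ n → Real.sqrt n * Real.sqrt n = n := fun n _ => Real.mul_self_sqrt (Nat.cast_nonneg _)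
    have hexp : ∀ n : ℕ, 1 ≤ n → Real.exp (Real.log n / 2) = Real.sqrt n := by
      intro n hn
      rw [Real.sqrt_eq_rpow, Real.rpow_def_of_pos (by exact_mod_cast hn)]
      congr 1
      ring
    have t1 : ∀ n ∈ Finset.Icc 1 N, w n / Real.sqrt n * phi1 b (Real.log n) x =
        if Real.log n ≤ b - x then (w n * Real.exp (x / 2) + w n / n * Real.exp (-(x / 2))) / ww x else 0 := by
      intro n hn
      have hn1 := (Finset.mem_Icc.1 hn).1
      have hs0 : 0 < Real.sqrt n := Real.sqrt_pos.2 (by exact_mod_cast hn1)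
      have hn0 : (0 : ℝ) < n := by exact_mod_cast hn1
      unfold phi1
      split_ifs with h
      · rw [indicator_of_mem (mem_Iic.2 (by linarith))]
        have e1 : ww (x + Real.log n) = Real.exp (x / 2) * Real.sqrt n + Real.exp (-(x / 2)) / Real.sqrt n := by
          unfold ww
          rw [← hexp n hn1, ← Real.exp_sub, ← Real.exp_add]
          congr 2 <;> ring
        rw [e1]
        have e2 := hsq n hn1
        rw [div_mul_div_comm, div_eq_div_iff (by positivity) hw.ne']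
        have e3 : w n / n = w n / (Real.sqrt n * Real.sqrt n) := by rw [e2]
        rw [e3]
        field_simp
      · rw [indicator_of_notMem, mul_zero]
        intro h'
        exact h (by have := mem_Iic.1 h'; linarith)
    have t2 : ∀ n ∈ Finset.Icc 1 N, w n / Real.sqrt n * phi2 b (Real.log n) x =
        if Real.log n ≤ b - (-x) then (w n * Real.exp (-(x / 2)) + w n / n * Real.exp (x / 2)) / ww x else 0 := by
      intro n hn
      have hn1 := (Finset.mem_Icc.1 hn).1
      have hs0 : 0 < Real.sqrt n := Real.sqrt_pos.2 (by exact_mod_cast hn1)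
      have hn0 : (0 : ℝ) < n := by exact_mod_cast hn1
      unfold phi2
      split_ifs with h
      · rw [indicator_of_mem (mem_Ici.2 (by linarith))]
        have e1 : ww (x - Real.log n) = Real.exp (x / 2) / Real.sqrt n + Real.exp (-(x / 2)) * Real.sqrt n := by
          unfold ww
          rw [← hexp n hn1, ← Real.exp_sub, ← Real.exp_add]
          congr 2 <;> ring
        rw [e1]
        have e2 := hsq n hn1
        rw [div_mul_div_comm, div_eq_div_iff (by positivity) hw.ne']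
        have e3 : w n / n = w n / (Real.sqrt n * Real.sqrt n) := by rw [e2]
        rw [e3]
        field_simp
        ring
      · rw [indicator_of_notMem, mul_zero]
        intro h'
        exact h (by have := mem_Ici.1 h'; linarith)
    simp_rw [mul_add]
    rw [Finset.sum_add_distrib, Finset.sum_congr rfl t1, Finset.sum_congr rfl t2, ← Finset.sum_filter, ← Finset.sum_filter,
      ← Finset.sum_div, ← Finset.sum_div, Finset.sum_add_distrib, Finset.sum_add_distrib, ← Finset.sum_mul, ← Finset.sum_mul,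
      ← Finset.sum_mul, ← Finset.sum_mul, ← add_div, div_le_iff₀ hw]
    have k1 := mul_le_mul_of_nonneg_right (hfil x hx1 hx2) (Real.exp_pos (x / 2)).le
    have k2 := mul_le_mul_of_nonneg_right (hfil2 x) (Real.exp_pos (-(x / 2))).le
    have k3 := mul_le_mul_of_nonneg_right (hfil (-x) (by linarith) (by linarith)) (Real.exp_pos (-(x / 2))).le
    have k4 := mul_le_mul_of_nonneg_right (hfil2 (-x)) (Real.exp_pos (x / 2)).le
    have e5 : Real.exp (b - x) * Real.exp (x / 2) = Real.exp b * Real.exp (-(x / 2)) := by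
      rw [← Real.exp_add, ← Real.exp_add]; congr 1; ring
    have e6 : Real.exp (b - -x) * Real.exp (-(x / 2)) = Real.exp b * Real.exp (x / 2) := by
      rw [← Real.exp_add, ← Real.exp_add]; congr 1; ring
    have k5 : (c * Real.exp (b - x) + e0) * Real.exp (x / 2) = c * (Real.exp b * Real.exp (-(x / 2))) + e0 * Real.exp (x / 2) := by
      rw [← e5]; ring
    have k6 : (c * Real.exp (b - -x) + e0) * Real.exp (-(x / 2)) = c * (Real.exp b * Real.exp (x / 2)) + e0 * Real.exp (-(x / 2)) := by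
      rw [← e6]; ring
    rw [k5] at k1
    rw [k6] at k3
    unfold ww
    linarith
  -- the sum of the shifts
  have h3 : 2 * (∑ n ∈ Finset.Icc 1 N, aa n * ∫ x : ℝ, g (x + Real.log n) * conj (g x)).re ≤
      ∑ n ∈ Finset.Icc 1 N, w n / Real.sqrt n * ∫ x : ℝ, (phi1 b (Real.log n) x + phi2 b (Real.log n) x) * ‖g x‖ ^ 2 := by
    rw [Complex.re_sum, Finset.mul_sum]
    refine Finset.sum_le_sum fun n hn => ?_
    have hn1 := (Finset.mem_Icc.1 hn).1
    have hl : 0 ≤ Real.log n := Real.log_nonneg (by exact_mod_cast hn1)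
    have hv : 0 ≤ w n / Real.sqrt n := div_nonneg (hwn n) (Real.sqrt_nonneg _)
    have k1 := one_shift hl hg
    have k2 := Complex.re_le_norm (aa n * ∫ x : ℝ, g (x + Real.log n) * conj (g x))
    rw [norm_mul] at k2
    have k3 : ‖aa n‖ * ‖∫ x : ℝ, g (x + Real.log n) * conj (g x)‖ ≤
        w n / Real.sqrt n * ‖∫ x : ℝ, g (x + Real.log n) * conj (g x)‖ :=
      mul_le_mul_of_nonneg_right (haa n hn1) (norm_nonneg _)
    have k4 := mul_le_mul_of_nonneg_left k1 hv
    linarith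
  refine h3.trans ?_
  have hint : ∀ n ∈ Finset.Icc 1 N, Integrable (fun x : ℝ => w n / Real.sqrt n *
      ((phi1 b (Real.log n) x + phi2 b (Real.log n) x) * ‖g x‖ ^ 2)) := by
    intro n hn
    have hn1 := (Finset.mem_Icc.1 hn).1
    have hl : 0 ≤ Real.log n := Real.log_nonneg (by exact_mod_cast hn1)
    refine Integrable.const_mul (((phi1_int hl hg).add (phi2_int hl hg)).congr (Eventually.of_forall fun x => ?_)) _
    simp only [Pi.add_apply]
    ring
  have e7 : ∑ n ∈ Finset.Icc 1 N, w n / Real.sqrt n * ∫ x : ℝ, (phi1 b (Real.log n) x + phi2 b (Real.log n) x) * ‖g x‖ ^ 2 =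
      ∫ x : ℝ, ∑ n ∈ Finset.Icc 1 N, w n / Real.sqrt n * ((phi1 b (Real.log n) x + phi2 b (Real.log n) x) * ‖g x‖ ^ 2) := by
    rw [integral_finsetSum _ hint]
    exact Finset.sum_congr rfl fun n _ => (integral_const_mul _ _).symm
  rw [e7]
  unfold N2
  rw [← integral_const_mul]
  refine integral_mono (integrable_finsetSum _ hint) (hg.sq_int.const_mul _) fun x => ?_
  simp only
  have e8 : ∑ n ∈ Finset.Icc 1 N, w n / Real.sqrt n * ((phi1 b (Real.log n) x + phi2 b (Real.log n) x) * ‖g x‖ ^ 2) =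
      (∑ n ∈ Finset.Icc 1 N, w n / Real.sqrt n * (phi1 b (Real.log n) x + phi2 b (Real.log n) x)) * ‖g x‖ ^ 2 := by
    rw [Finset.sum_mul]
    exact Finset.sum_congr rfl fun n _ => by ring
  rw [e8]
  by_cases hx : |x| ≤ b
  · exact mul_le_mul_of_nonneg_right (hS x hx) (sq_nonneg _)
  · rw [hg.2 x (not_le.1 hx), norm_zero]
    simp



/-- partial summation -/
lemma sum_div_le {w : ℕ → ℝ} {K : ℝ} (hK : 0 ≤ K)
    (h : ∀ N : ℕ, 1 ≤ N → ∑ n ∈ Finset.Icc 1 N, w n ≤ K * N) (N : ℕ) :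
    ∑ n ∈ Finset.Icc 1 N, w n / n ≤ (∑ n ∈ Finset.Icc 1 N, w n) / (N + 1) + K * Real.log (N + 1) := by
  induction N with
  | zero => simp
  | succ N ih =>
    have hG := h (N + 1) (by omega)
    rw [Finset.sum_Icc_succ_top (by omega)] at hG ⊢
    rw [Finset.sum_Icc_succ_top (by omega)]
    set S := ∑ n ∈ Finset.Icc 1 N, w n with hS
    have hlog : 1 / ((N : ℝ) + 2) ≤ Real.log (N + 1 + 1) - Real.log (N + 1) := by
      have h1 : (0 : ℝ) < N + 1 := by positivity
      rw [← Real.log_div (by positivity) (by positivity)]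
      have h2 := Real.one_sub_inv_le_log_of_pos (x := ((N : ℝ) + 1 + 1) / (N + 1)) (by positivity)
      refine le_trans (le_of_eq ?_) h2
      rw [inv_div]
      field_simp
      ring
    push_cast at hG ⊢
    have h3 : w (N + 1) / ((N : ℝ) + 1) + S / (N + 1) = (S + w (N + 1)) / (N + 1 + 1) +
        (S + w (N + 1)) / ((N + 1) * (N + 1 + 1)) := by
      field_simp
      ring
    have h4 : (S + w (N + 1)) / (((N : ℝ) + 1) * (N + 1 + 1)) ≤ K * (1 / (N + 2)) := by
      rw [div_le_iff₀ (by positivity)]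
      have : K * (1 / ((N : ℝ) + 2)) * ((N + 1) * (N + 1 + 1)) = K * (N + 1) := by
        field_simp
        ring
      rw [this]
      exact hG
    have h5 : K * (1 / ((N : ℝ) + 2)) ≤ K * (Real.log (N + 1 + 1) - Real.log (N + 1)) :=
      mul_le_mul_of_nonneg_left hlog hK
    linarith

/-- the bound of the primes -/
lemma schurL {δ κ e : ℝ} (hδ : 0 < δ) (hκ : 0 ≤ κ) (he : 0 ≤ e) : ∃ C : ℝ, 0 ≤ C ∧ ∀ (L : LFun) (A : ℝ), Bd L A κ e →
    ∀ b : ℝ, 0 < b → ∀ g : ℝ → ℂ, Fa b g →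
    2 * (∑ n ∈ Finset.Icc 1 ⌊Real.exp (2 * b)⌋₊, aL (L := L) n * ∫ x : ℝ, g (x + Real.log n) * conj (g x)).re ≤
      ((κ + δ) * Real.exp b + C) * N2 g := by
  refine ⟨e + (κ + e) * (2 + 8 * (κ + e) / δ), by positivity, fun L A hL b hb g hg => ?_⟩
  have hwn : ∀ n : ℕ, 0 ≤ ArithmeticFunction.vonMangoldt n * ‖L.c n‖ := fun n =>
    mul_nonneg ArithmeticFunction.vonMangoldt_nonneg (norm_nonneg _)
  have haa : ∀ n : ℕ, 1 ≤ n → ‖aL (L := L) n‖ ≤ (ArithmeticFunction.vonMangoldt n * ‖L.c n‖) / Real.sqrt n := by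
    intro n hn
    have e3 : aL (L := L) n = ((ArithmeticFunction.vonMangoldt n : ℝ) : ℂ) *
        (L.c n * Pool.Agent.TH839.NA.pw (-(1 / 2)) n) := rfl
    rw [e3, norm_mul, norm_mul, Pool.Agent.TH839.NA.pw_norm, Complex.norm_real,
      Real.norm_of_nonneg ArithmeticFunction.vonMangoldt_nonneg, Real.rpow_neg (Nat.cast_nonneg _), ← Real.sqrt_eq_rpow]
    refine le_of_eq ?_
    ring
  have hN : ∀ N : ℕ, 1 ≤ N → ∑ n ∈ Finset.Icc 1 N, (ArithmeticFunction.vonMangoldt n * ‖L.c n‖) ≤ (κ + e) * N := by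
    intro N hN
    have h1 := hL.primes N (by exact_mod_cast hN)
    rw [Nat.floor_natCast] at h1
    have h2 : (1 : ℝ) ≤ N := by exact_mod_cast hN
    nlinarith
  have hK : 0 ≤ κ + e := by positivity
  have h2 := sum_div_le hK hN ⌊Real.exp (2 * b)⌋₊
  have hfl : 1 ≤ ⌊Real.exp (2 * b)⌋₊ := by
    rw [Nat.one_le_floor_iff]
    exact Real.one_le_exp (by positivity)
  have h3 := hN _ hfl
  have h4 : (⌊Real.exp (2 * b)⌋₊ : ℝ) ≤ Real.exp (2 * b) := Nat.floor_le (Real.exp_pos _).le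
  have h5 : Real.log ((⌊Real.exp (2 * b)⌋₊ : ℝ) + 1) ≤ 2 * b + 1 := by
    rw [Real.log_le_iff_le_exp (by positivity)]
    have h6 := Real.one_le_exp (show 0 ≤ 2 * b by positivity)
    have h7 := Real.add_one_le_exp (1 : ℝ)
    rw [Real.exp_add]
    nlinarith
  have h6 : (∑ n ∈ Finset.Icc 1 ⌊Real.exp (2 * b)⌋₊, (ArithmeticFunction.vonMangoldt n * ‖L.c n‖)) /
      ((⌊Real.exp (2 * b)⌋₊ : ℝ) + 1) ≤ κ + e := by
    rw [div_le_iff₀ (by positivity)]
    nlinarith
  have h7 : ∑ n ∈ Finset.Icc 1 ⌊Real.exp (2 * b)⌋₊, (ArithmeticFunction.vonMangoldt n * ‖L.c n‖) / n ≤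
      δ * Real.exp b + (κ + e) * (2 + 8 * (κ + e) / δ) := by
    refine (h2.trans (add_le_add h6 (mul_le_mul_of_nonneg_left h5 hK))).trans ?_
    -- `2 K b ≤ δ e^b + 8 K²/δ`
    have h8 : b ≤ 2 * Real.exp (b / 2) := by
      have := Real.add_one_le_exp (b / 2)
      linarith
    have h9 : 2 * (κ + e) * b ≤ δ * Real.exp b + 8 * (κ + e) / δ * (κ + e) := by
      have e1 : Real.exp b = Real.exp (b / 2) ^ 2 := by rw [← Real.exp_nat_mul]; congr 1; push_cast; ring
      set x : ℝ := Real.exp (b / 2) with hx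
      have h10 : 2 * (κ + e) * b ≤ 4 * (κ + e) * x := by nlinarith
      have h11 : 4 * (κ + e) * x ≤ δ * x ^ 2 + 4 * (κ + e) ^ 2 / δ := by
        have e2 : δ * x ^ 2 + 4 * (κ + e) ^ 2 / δ - 4 * (κ + e) * x = (δ * x - 2 * (κ + e)) ^ 2 / δ := by
          field_simp
          ring
        have e3 : 0 ≤ (δ * x - 2 * (κ + e)) ^ 2 / δ := by positivity
        linarith
      have h12 : 4 * (κ + e) ^ 2 / δ ≤ 8 * (κ + e) / δ * (κ + e) := by
        have e2 : 8 * (κ + e) / δ * (κ + e) = 8 * (κ + e) ^ 2 / δ := by ring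
        rw [e2]
        exact div_le_div_of_nonneg_right (by nlinarith [sq_nonneg (κ + e)]) hδ.le
      rw [e1]
      linarith
    nlinarith
  have h8 := schurW (w := fun n => ArithmeticFunction.vonMangoldt n * ‖L.c n‖) hwn haa (c := κ) (e0 := e) hb
    (fun y hy _ => hL.primes y hy) h7 hg
  refine h8.trans (le_of_eq ?_)
  ring

end Pool.Agent.Zk3.WI
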